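import Mathlib

/-!
# Affine Lie algebras, their vacuum modules, centres and `p`-centres

Here `g` is any Lie algebra over the field `K` with an invariant symmetric bilinear form.
-/

namespace Pool.Agent.PVA.G

noncomputable section

/-- An invariant symmetric bilinear form. -/
structure InvForm (K g : Type) [Field K] [LieRing g] [LieAlgebra K g] where
  /-- the form -/
  B : g →ₗ[K] g →ₗ[K] K
  symm : ∀ x y, B x y = B y x
  inv : ∀ x y z, B ⁅x, y⁆ z = B x ⁅y, z⁆

variable {K g : Type} [Field K] [LieRing g] [LieAlgebra K g] (β : InvForm K g)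

/-- The bracket of the loop algebra on `T^m x`. -/
def br1 (K : Type) {g : Type} [Field K] [LieRing g] [LieAlgebra K g] (m : ℤ) :
    g →ₗ[K] (ℤ →₀ g) →ₗ[K] (ℤ →₀ g) where
  toFun x := Finsupp.lsum K fun n => (Finsupp.lsingle (m + n)).comp (LieModule.toEnd K g g x)
  map_add' x y := by ext; simp
  map_smul' r x := by ext; simp

/-- The bracket of the loop algebra: `[T^m x, T^n y] = T^(m+n) [x, y]`. -/
def br (K : Type) {g : Type} [Field K] [LieRing g] [LieAlgebra K g] :
    (ℤ →₀ g) →ₗ[K] (ℤ →₀ g) →ₗ[K] (ℤ →₀ g) :=
  Finsupp.lsum K fun m => br1 K m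

theorem br_single (m n : ℤ) (x y : g) :
    br K (Finsupp.single m x) (Finsupp.single n y) = Finsupp.single (m + n) ⁅x, y⁆ := by
  simp [br, br1]

/-- The cocycle on `T^m x`. -/
def om1 (m : ℤ) : g →ₗ[K] (ℤ →₀ g) →ₗ[K] K where
  toFun x := Finsupp.lsum K fun n => (if m + n = 0 then (m : K) else 0) • β.B x
  map_add' x y := by ext n z; by_cases h : m + n = 0 <;> simp [h]
  map_smul' r x := by
    ext n z
    by_cases h : m + n = 0
    · simp [h]; ring
    · simp [h]

/-- The cocycle `(T^m x, T^n y) ↦ m δ_(m+n,0) <x, y>`. -/
def om : (ℤ →₀ g) →ₗ[K] (ℤ →₀ g) →ₗ[K] K := Finsupp.lsum K fun m => om1 β m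

theorem om_single (m n : ℤ) (x y : g) :
    om β (Finsupp.single m x) (Finsupp.single n y) =
      (if m + n = 0 then (m : K) else 0) * β.B x y := by
  by_cases h : m + n = 0 <;> simp [om, om1, h]

theorem br_skew (a b : ℤ →₀ g) : br K a b = -br K b a := by
  induction a using Finsupp.induction_linear with
  | zero => simp
  | add a a' h h' => simp only [map_add, LinearMap.add_apply, h, h']; abel
  | single m x =>
    induction b using Finsupp.induction_linear with
    | zero => simp
    | add b b' h h' => simp only [map_add, LinearMap.add_apply, h, h']; abel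
    | single n y => rw [br_single, br_single, ← Finsupp.single_neg, lie_skew, add_comm]

theorem om_skew (a b : ℤ →₀ g) : om β a b = -om β b a := by
  induction a using Finsupp.induction_linear with
  | zero => simp
  | add a a' h h' => simp only [map_add, LinearMap.add_apply, h, h']; ring
  | single m x =>
    induction b using Finsupp.induction_linear with
    | zero => simp
    | add b b' h h' => simp only [map_add, LinearMap.add_apply, h, h']; ring
    | single n y =>
      rw [om_single, om_single, β.symm y x]
      by_cases h : m + n = 0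
      · have h' : n = -m := by omega
        subst h'
        simp
      · rw [if_neg h, if_neg (by omega)]; simp

theorem br_self (a : ℤ →₀ g) : br K a a = 0 := by
  induction a using Finsupp.induction_linear with
  | zero => simp
  | add a b h h' =>
    simp only [map_add, LinearMap.add_apply, h, h', zero_add, add_zero]
    rw [br_skew a b]; abel
  | single m x => rw [br_single, lie_self, Finsupp.single_zero]

theorem om_self (a : ℤ →₀ g) : om β a a = 0 := by
  induction a using Finsupp.induction_linear with
  | zero => simp
  | add a b h h' =>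
    simp only [map_add, LinearMap.add_apply, h, h', zero_add, add_zero]
    rw [om_skew β a b]; ring
  | single m x =>
    rw [om_single]
    by_cases h : m + m = 0
    · have h' : m = 0 := by omega
      simp [h']
    · simp [h]

theorem br_jac (a b c : ℤ →₀ g) : br K a (br K b c) = br K (br K a b) c + br K b (br K a c) := by
  induction a using Finsupp.induction_linear with
  | zero => simp
  | add a a' h h' => simp only [map_add, LinearMap.add_apply, h, h']; abel
  | single m x =>
    induction b using Finsupp.induction_linear with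
    | zero => simp
    | add b b' h h' => simp only [map_add, LinearMap.add_apply, h, h']; abel
    | single n y =>
      induction c using Finsupp.induction_linear with
      | zero => simp
      | add c c' h h' => simp only [map_add, LinearMap.add_apply, h, h']; abel
      | single k z =>
        simp only [br_single]
        rw [leibniz_lie x y z, Finsupp.single_add, add_assoc m n k,
          show n + (m + k) = m + (n + k) by ring]

theorem om_jac (a b c : ℤ →₀ g) :
    om β a (br K b c) = om β (br K a b) c + om β b (br K a c) := by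
  induction a using Finsupp.induction_linear with
  | zero => simp
  | add a a' h h' => simp only [map_add, LinearMap.add_apply, h, h']; ring
  | single m x =>
    induction b using Finsupp.induction_linear with
    | zero => simp
    | add b b' h h' => simp only [map_add, LinearMap.add_apply, h, h']; ring
    | single n y =>
      induction c using Finsupp.induction_linear with
      | zero => simp
      | add c c' h h' => simp only [map_add, LinearMap.add_apply, h, h']; ring
      | single k z =>
        simp only [br_single, om_single]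
        have e1 : β.B x ⁅y, z⁆ = β.B ⁅x, y⁆ z := (β.inv x y z).symm
        have e2 : β.B y ⁅x, z⁆ = -β.B ⁅x, y⁆ z := by
          rw [← β.inv y x z, ← lie_skew y x, map_neg, LinearMap.neg_apply]
        rw [e1, e2]
        by_cases h : m + (n + k) = 0
        · rw [if_pos h, if_pos (by omega), if_pos (by omega)]
          push_cast; ring
        · rw [if_neg h, if_neg (by omega), if_neg (by omega)]
          ring

/-- The affine Lie algebra `g[T, T⁻¹] + K c`. -/
def Aff (_ : InvForm K g) : Type := (ℤ →₀ g) × K

namespace Aff

instance : AddCommGroup (Aff β) := inferInstanceAs (AddCommGroup ((ℤ →₀ g) × K))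
instance : Module K (Aff β) := inferInstanceAs (Module K ((ℤ →₀ g) × K))

instance : Bracket (Aff β) (Aff β) where
  bracket x y := (br K x.1 y.1, om β x.1 y.1)

theorem lie_def (x y : Aff β) : ⁅x, y⁆ = ((br K x.1 y.1, om β x.1 y.1) : (ℤ →₀ g) × K) := rfl

instance : LieRing (Aff β) where
  add_lie x y w := Prod.ext (by
      change br K (x.1 + y.1) w.1 = br K x.1 w.1 + br K y.1 w.1
      rw [map_add, LinearMap.add_apply]) (by
      change om β (x.1 + y.1) w.1 = om β x.1 w.1 + om β y.1 w.1
      rw [map_add, LinearMap.add_apply])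
  lie_add x y w := Prod.ext (by
      change br K x.1 (y.1 + w.1) = br K x.1 y.1 + br K x.1 w.1
      rw [map_add]) (by
      change om β x.1 (y.1 + w.1) = om β x.1 y.1 + om β x.1 w.1
      rw [map_add])
  lie_self x := Prod.ext (br_self x.1) (om_self β x.1)
  leibniz_lie x y w := Prod.ext (br_jac x.1 y.1 w.1) (om_jac β x.1 y.1 w.1)

instance : LieAlgebra K (Aff β) where
  lie_smul r x y := Prod.ext (by
      change br K x.1 (r • y.1) = r • br K x.1 y.1
      rw [map_smul]) (by
      change om β x.1 (r • y.1) = r • om β x.1 y.1
      rw [map_smul])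

/-- The element `x_n = T^n x`. -/
def mono (n : ℤ) : g →ₗ[K] Aff β :=
  (LinearMap.inl K (ℤ →₀ g) K).comp (Finsupp.lsingle n)

/-- The central element `c`. -/
def cen : Aff β := ((0, 1) : (ℤ →₀ g) × K)

/-- The relations `[x_m, y_n] = [x, y]_(m+n) + m δ_(m+n,0) <x, y> c`. -/
theorem lie_mono (x y : g) (m n : ℤ) :
    ⁅mono β m x, mono β n y⁆ =
      mono β (m + n) ⁅x, y⁆ + (if m + n = 0 then (m : K) * β.B x y else 0) • cen β := by
  refine Prod.ext ?_ ?_
  · change br K (Finsupp.single m x) (Finsupp.single n y) =
      Finsupp.single (m + n) ⁅x, y⁆ + (if m + n = 0 then (m : K) * β.B x y else 0) • (0 : ℤ →₀ g)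
    rw [br_single, smul_zero, add_zero]
  · change om β (Finsupp.single m x) (Finsupp.single n y) =
      0 + (if m + n = 0 then (m : K) * β.B x y else 0) • (1 : K)
    rw [om_single, smul_eq_mul, mul_one, zero_add]
    by_cases h : m + n = 0 <;> simp [h]

theorem cen_lie (x : Aff β) : ⁅cen β, x⁆ = 0 := by
  refine Prod.ext ?_ ?_
  · change br K 0 x.1 = 0
    rw [map_zero, LinearMap.zero_apply]
  · change om β 0 x.1 = 0
    rw [map_zero, LinearMap.zero_apply]

/-- induction principle -/
theorem ind {P : Aff β → Prop} (hadd : ∀ x y, P x → P y → P (x + y))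
    (hm : ∀ n x, P (mono β n x)) (hc : ∀ r : K, P (r • cen β)) (x : Aff β) : P x := by
  have h1 : ∀ a : ℤ →₀ g, P ((a, 0) : (ℤ →₀ g) × K) := fun a => by
    induction a using Finsupp.induction_linear with
    | zero =>
      have := hc 0
      rw [zero_smul] at this
      exact this
    | add a b h h' =>
      have := hadd _ _ h h'
      have e : ((a, 0) : (ℤ →₀ g) × K) + ((b, 0) : (ℤ →₀ g) × K) = (a + b, 0) := by simp
      exact e ▸ this
    | single n y => exact hm n y
  let y : Aff β := ((x.1, 0) : (ℤ →₀ g) × K)
  have h2 : x = y + x.2 • cen β := by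
    refine Prod.ext ?_ ?_
    · change x.1 = x.1 + x.2 • (0 : ℤ →₀ g)
      rw [smul_zero, add_zero]
    · change x.2 = 0 + x.2 • (1 : K)
      rw [smul_eq_mul, mul_one, zero_add]
  rw [h2]
  exact hadd _ _ (h1 _) (hc _)

end Aff

/-- The enveloping algebra of the affine Lie algebra. -/
abbrev U := UniversalEnvelopingAlgebra K (Aff β)

/-- The element `x_n` of the enveloping algebra. -/
def xx (x : g) (n : ℤ) : U β := UniversalEnvelopingAlgebra.ι K (Aff.mono β n x)

/-- The central element `c` in the enveloping algebra. -/
def cc : U β := UniversalEnvelopingAlgebra.ι K (Aff.cen β)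

/-- The left ideal generated by `x_n` (`n ≥ 0`) and `c - κ`. -/
def lid (κ : K) : Submodule (U β) (U β) :=
  Submodule.span (U β) ({u | ∃ (x : g) (n : ℤ), 0 ≤ n ∧ u = xx β x n} ∪
    {cc β - algebraMap K (U β) κ})

/-- The vacuum module `V^κ(g)`: the quotient of `U` by the left ideal generated by the
`x_n` (`n ≥ 0`) and `c - κ`. -/
abbrev V (κ : K) := U β ⧸ lid β κ

/-- The vacuum vector. -/
def vac (κ : K) : V β κ := Submodule.Quotient.mk 1

/-- The `l`-th product of the field `X(z) = ∑ x_n z^(-n-1)` with a field `Y(z) = ∑ Y_n z^(-n-1)`: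
`(X_(l) Y)_n = ∑_(j ≥ 0) (-1)^j (l choose j) (x_(l-j) Y_(n+j) - (-1)^l Y_(n+l-j) x_j)`. -/
def nprod (κ : K) (x : g) (l : ℤ) (Y : ℤ → V β κ → V β κ) : ℤ → V β κ → V β κ :=
  fun n v => ∑ᶠ j : ℕ, ((-1) ^ j * Ring.choose l j : ℤ) •
    (xx β x (l - j) • Y (n + j) v -
      ((Int.negOnePow l : ℤˣ) : ℤ) • Y (n + l - j) (xx β x j • v))

/-- `StateField β κ u Y` says that `Y(z) = ∑ Y_n z^(-n-1)` is the field of the vector `u` of the
vertex algebra `V^κ(g)`: the field of the vacuum is the identity, the field of `x_l u` is the
`l`-th product of `X(z)` with the field of `u`, and the field is linear in the vector. -/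
inductive StateField (κ : K) : V β κ → (ℤ → V β κ → V β κ) → Prop
  | vac : StateField κ (vac β κ) (fun n v => if n = -1 then v else 0)
  | act (x : g) (l : ℤ) {u : V β κ} {Y : ℤ → V β κ → V β κ} :
      StateField κ u Y → StateField κ (xx β x l • u) (nprod β κ x l Y)
  | add {u u' : V β κ} {Y Y' : ℤ → V β κ → V β κ} : StateField κ u Y → StateField κ u' Y' →
      StateField κ (u + u') (fun n v => Y n v + Y' n v)
  | smul (r : K) {u : V β κ} {Y : ℤ → V β κ → V β κ} : StateField κ u Y →
      StateField κ (r • u) (fun n v => r • Y n v)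

/-- The centre of the vertex algebra `V^κ(g)`: the `v` with `Y(u, z) v ∈ V[[z]]` for all `u`. -/
def centre (κ : K) : Set (V β κ) :=
  {v | ∀ u Y, StateField β κ u Y → ∀ n : ℤ, 0 ≤ n → Y n v = 0}

/-- The subalgebra generated by the elements `(x_n)^p - (x_n)^[p]`, where `(x_n)^[p]` is
`(P x)_(pn)` for the `p`-map `P` of `g`. -/
def Z0 (p : ℕ) (P : g → g) : Subalgebra K (U β) :=
  Algebra.adjoin K {u | ∃ (x : g) (n : ℤ), u = xx β x n ^ p - xx β (P x) (p * n)}

/-- The `p`-centre of `V^κ(g)`. -/
def pCentre (p : ℕ) (P : g → g) (κ : K) : Set (V β κ) :=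
  {v | ∃ z ∈ Z0 β p P, v = z • vac β κ}

end

end Pool.Agent.PVA.G
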