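import Pool.Agent.PVA.G.Stm

/-!
# Piece GBA: basic lemmas on the vacuum modules (port of SUG.lean)
-/

namespace Pool.Agent.PVA.G

namespace GBA

attribute [local instance 100] LieRing.ofAssociativeRing

noncomputable section

variable {K g : Type} [Field K] [LieRing g] [LieAlgebra K g] (β : InvForm K g)

theorem ind_ι {P : U β → Prop} (hι : ∀ x, P (UniversalEnvelopingAlgebra.ι K x))
    (halg : ∀ r, P (algebraMap K (U β) r)) (hadd : ∀ x y, P x → P y → P (x + y))
    (hmul : ∀ x y, P x → P y → P (x * y)) (z : U β) : P z := by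
  let S : Subalgebra K (U β) :=
    { carrier := {z | P z}
      mul_mem' := fun {a b} ha hb => hmul a b ha hb
      add_mem' := fun {a b} ha hb => hadd a b ha hb
      algebraMap_mem' := halg }
  let f : Aff β →ₗ⁅K⁆ S :=
    { toFun := fun x => ⟨UniversalEnvelopingAlgebra.ι K x, hι x⟩
      map_add' := fun x y => by ext; simp
      map_smul' := fun r x => by ext; simp
      map_lie' := fun {x y} => by
        apply Subtype.ext
        simp [LieRing.of_associative_ring_bracket] }
  have h : (S.val.comp (UniversalEnvelopingAlgebra.lift K f)) = AlgHom.id K (U β) := by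
    apply UniversalEnvelopingAlgebra.hom_ext
    ext x
    simp [f]
  have h2 := DFunLike.congr_fun h z
  simp only [AlgHom.comp_apply, AlgHom.id_apply] at h2
  rw [← h2]
  exact (UniversalEnvelopingAlgebra.lift K f z).2

theorem ind_xx {P : U β → Prop} (hx : ∀ x n, P (xx β x n)) (hc : P (cc β))
    (halg : ∀ r, P (algebraMap K (U β) r)) (hadd : ∀ x y, P x → P y → P (x + y))
    (hmul : ∀ x y, P x → P y → P (x * y)) (z : U β) : P z := by
  refine ind_ι β ?_ halg hadd hmul z
  intro x
  refine Aff.ind β (P := fun x => P (UniversalEnvelopingAlgebra.ι K x)) ?_ ?_ ?_ x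
  · intro x y h1 h2
    rw [map_add]
    exact hadd _ _ h1 h2
  · intro n x
    exact hx x n
  · intro r
    rw [map_smul, Algebra.smul_def]
    exact hmul _ _ (halg r) hc

theorem cc_comm (z : U β) : cc β * z = z * cc β := by
  refine ind_ι β (P := fun z => cc β * z = z * cc β) ?_ ?_ ?_ ?_ z
  · intro x
    have h := (UniversalEnvelopingAlgebra.ι K).map_lie (Aff.cen β) x
    rw [Aff.cen_lie, map_zero, LieRing.of_associative_ring_bracket] at h
    exact (sub_eq_zero.1 h.symm)
  · intro r
    exact (Algebra.commutes r _).symm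
  · intro x y hx hy
    rw [mul_add, add_mul, hx, hy]
  · intro x y hx hy
    rw [← mul_assoc, hx, mul_assoc, hy, mul_assoc]

theorem xx_mul (x y : g) (m n : ℤ) : xx β x m * xx β y n = xx β y n * xx β x m +
    xx β ⁅x, y⁆ (m + n) + (if m + n = 0 then (m : K) * β.B x y else 0) • cc β := by
  have h := (UniversalEnvelopingAlgebra.ι K).map_lie (Aff.mono β m x) (Aff.mono β n y)
  rw [Aff.lie_mono, LieRing.of_associative_ring_bracket, map_add, map_smul] at h
  change xx β ⁅x, y⁆ (m + n) + _ • cc β = xx β x m * xx β y n - xx β y n * xx β x m at h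
  rw [add_assoc, h]
  abel

theorem xx_vac (κ : K) (x : g) (n : ℤ) (hn : 0 ≤ n) : xx β x n • vac β κ = 0 := by
  unfold vac
  rw [← Submodule.Quotient.mk_smul, smul_eq_mul, mul_one, Submodule.Quotient.mk_eq_zero]
  exact Submodule.subset_span (Or.inl ⟨x, n, hn, rfl⟩)

theorem cc_vac (κ : K) : cc β • vac β κ = κ • vac β κ := by
  unfold vac
  rw [← sub_eq_zero, ← algebraMap_smul (U β) κ, ← Submodule.Quotient.mk_smul,
    ← Submodule.Quotient.mk_smul, ← Submodule.Quotient.mk_sub, Submodule.Quotient.mk_eq_zero]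
  simp only [smul_eq_mul, mul_one]
  exact Submodule.subset_span (Or.inr rfl)

theorem ex_vac (κ : K) (v : V β κ) : ∃ z : U β, v = z • vac β κ := by
  obtain ⟨z, rfl⟩ := Submodule.Quotient.mk_surjective _ v
  refine ⟨z, ?_⟩
  unfold vac
  rw [← Submodule.Quotient.mk_smul, smul_eq_mul, mul_one]

theorem cc_smul (κ : K) (v : V β κ) : cc β • v = κ • v := by
  obtain ⟨z, rfl⟩ := ex_vac β κ v
  rw [← mul_smul, cc_comm, mul_smul, cc_vac, smul_comm]

theorem xx_comm (κ : K) (x y : g) (m n : ℤ) (v : V β κ) : xx β x m • (xx β y n • v) =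
      xx β y n • (xx β x m • v) + xx β ⁅x, y⁆ (m + n) • v +
        (if m + n = 0 then (m : K) * β.B x y * κ else 0) • v := by
  have h2 := congrArg (fun z : U β => z • v) (xx_mul β x y m n)
  simp only [add_smul, mul_smul, smul_assoc, cc_smul] at h2
  rw [h2]
  congr 1
  by_cases hmn : m + n = 0
  · simp only [hmn, if_true, smul_smul]
  · simp only [hmn, if_false, zero_smul]

end

end GBA

theorem t_GBA : S_GBA := by
  intro K g _ _ _ β
  exact ⟨fun P hx hc halg hadd hmul z => GBA.ind_xx β hx hc halg hadd hmul z,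
    GBA.cc_comm β, GBA.xx_mul β, fun κ => ⟨GBA.xx_vac β κ, GBA.cc_smul β κ, GBA.ex_vac β κ,
      GBA.xx_comm β κ⟩⟩

end Pool.Agent.PVA.G
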