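import Pool.Agent.PVA.G.Stm

/-!
# Piece GCA (by helper21)
-/

open Module

namespace Pool.Agent.PVA.G

theorem t_GCA21 : S_GCA := by
  intro K g _ _ _ _ _ _
  by_contra hcon
  have key : ∀ x : g, IsNilpotent (LieAlgebra.ad K g x) := by
    intro x
    have h1 : ∀ μ : K, (LieAlgebra.ad K g x : Module.End K g).HasEigenvalue μ → μ = 0 := by
      intro μ hμ
      obtain ⟨v, hv⟩ := hμ.exists_hasEigenvector
      by_contra hne
      exact hcon ⟨x, v, μ, hne, hv.2, hv.apply_eq_smul⟩
    rw [LinearMap.isNilpotent_iff_charpoly]
    have hm := LinearMap.charpoly_monic (LieAlgebra.ad K g x : Module.End K g)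
    have hs := IsAlgClosed.splits (LieAlgebra.ad K g x : Module.End K g).charpoly
    have hr : ∀ a ∈ (LieAlgebra.ad K g x : Module.End K g).charpoly.roots, a = 0 := by
      intro a ha
      apply h1
      rw [Module.End.hasEigenvalue_iff_isRoot_charpoly]
      exact (Polynomial.mem_roots hm.ne_zero).1 ha
    have h2 := hs.eq_prod_roots_of_monic hm
    have h3 : (LieAlgebra.ad K g x : Module.End K g).charpoly.roots =
        Multiset.replicate (finrank K g) 0 := by
      rw [Multiset.eq_replicate]
      refine ⟨?_, hr⟩
      rw [← LinearMap.charpoly_natDegree (LieAlgebra.ad K g x : Module.End K g)]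
      exact hs.natDegree_eq_card_roots.symm
    rw [h2, h3]
    simp
  have hn : LieRing.IsNilpotent g := by
    rw [LieAlgebra.isNilpotent_iff_forall (R := K)]
    exact key
  have hs : LieAlgebra.IsSolvable g := inferInstance
  have h2 : (⊤ : LieIdeal K g) = ⊥ := by
    apply LieAlgebra.HasTrivialRadical.eq_bot_of_isSolvable
  have := LieAlgebra.IsSimple.nontrivial K g
  exact top_ne_bot h2

end Pool.Agent.PVA.G
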