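import Pool.Agent.PVA.G.Stm

/-!
# Piece GCZ (helper53): the elements `(x_n)^p - (x_n)^[p]` are central
-/

set_option autoImplicit false

namespace Pool.Agent.PVA.G

namespace GCZP

/-- the adjoint operator -/
noncomputable def adj (K : Type) [Field K] {A : Type} [Ring A] [Algebra K A] (x : A) :
    Module.End K A :=
  LinearMap.mulLeft K x - LinearMap.mulRight K x

theorem adj_apply {K : Type} [Field K] {A : Type} [Ring A] [Algebra K A] (x y : A) :
    adj K x y = x * y - y * x := rfl

theorem adj_pow {K : Type} [Field K] {A : Type} [Ring A] [Algebra K A] [Nontrivial A] (p : ℕ)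
    [Fact p.Prime] [CharP K p] (x y : A) : (adj K x ^ p) y = x ^ p * y - y * x ^ p := by
  have : CharP (Module.End K A) p :=
    charP_of_injective_algebraMap (algebraMap K (Module.End K A)).injective p
  have h := sub_pow_char_of_commute (R := Module.End K A) (p := p)
    (LinearMap.commute_mulLeft_right (R := K) (A := A) x x)
  have e : adj K x = LinearMap.mulLeft K x - LinearMap.mulRight K x := rfl
  rw [e, h, LinearMap.pow_mulLeft, LinearMap.pow_mulRight]
  rfl

variable {K g : Type} [Field K] [LieRing g] [LieAlgebra K g] (β : InvForm K g)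

theorem B_lie (x y : g) : β.B x ⁅x, y⁆ = 0 := by
  rw [← β.inv, lie_self, map_zero, LinearMap.zero_apply]

theorem step (hB : S_GBA) (x y : g) (m n : ℤ) : xx β x m * xx β y n - xx β y n * xx β x m =
    xx β ⁅x, y⁆ (m + n) + (if m + n = 0 then (m : K) * β.B x y else 0) • cc β := by
  rw [(hB K g β).2.2.1 x y m n]
  abel

theorem adj_cc (hB : S_GBA) (z : U β) : adj K z (cc β) = 0 := by
  rw [adj_apply, (hB K g β).2.1 z, sub_self]

theorem iter (hB : S_GBA) (x y : g) (m n : ℤ) (k : ℕ) :
    (adj K (xx β x m) ^ (k + 2)) (xx β y n) =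
      xx β (((LieAlgebra.ad K g x) ^ (k + 2)) y) ((k + 2 : ℕ) * m + n) := by
  induction k with
  | zero =>
    rw [zero_add, pow_two, pow_two, Module.End.mul_apply, Module.End.mul_apply,
      adj_apply _ (xx β y n), step β hB, map_add, map_smul, adj_cc β hB, smul_zero, add_zero,
      adj_apply, step β hB, B_lie, mul_zero, ite_self, zero_smul, add_zero]
    have e : m + (m + n) = ((2 : ℕ) : ℤ) * m + n := by push_cast; ring
    rw [e]
    rfl
  | succ k ih =>
    rw [pow_succ', Module.End.mul_apply, ih, adj_apply]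
    have e1 : ((LieAlgebra.ad K g x) ^ (k + 2)) y = ⁅x, ((LieAlgebra.ad K g x) ^ (k + 1)) y⁆ := by
      rw [pow_succ' _ (k + 1), Module.End.mul_apply]
      rfl
    rw [step β hB]
    have h0 : β.B x (((LieAlgebra.ad K g x) ^ (k + 2)) y) = 0 := by
      rw [e1]; exact B_lie β _ _
    rw [h0, mul_zero, ite_self, zero_smul, add_zero]
    have e : m + (((k + 2 : ℕ) : ℤ) * m + n) = ((k + 1 + 2 : ℕ) : ℤ) * m + n := by push_cast; ring
    rw [e, show k + 1 + 2 = (k + 2) + 1 from rfl, pow_succ' (LieAlgebra.ad K g x) (k + 2),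
      Module.End.mul_apply]
    rfl

end GCZP

open GCZP in
theorem t_GCZ (hB : S_GBA) : S_GCZ := by
  intro K g _ _ _ p _ _ β P hp hP x m z
  obtain ⟨hind, hcc, -⟩ := hB K g β
  rcases subsingleton_or_nontrivial (U β) with hs | hs
  · exact Subsingleton.elim _ _
  obtain ⟨q, hq⟩ : ∃ q, p = q + 2 := ⟨p - 2, by omega⟩
  refine hind (fun z => z * (xx β x m ^ p - xx β (P x) (p * m)) =
    (xx β x m ^ p - xx β (P x) (p * m)) * z) ?_ ?_ ?_ ?_ ?_ z
  · intro y n
    have e1 := adj_pow (K := K) p (xx β x m) (xx β y n)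
    have e2 := iter β hB x y m n q
    rw [← hq] at e2
    rw [e2, ← hP x y] at e1
    have e3 := step β hB (P x) y (p * m) n
    have e4 : (((p : ℤ) * m : ℤ) : K) = 0 := by
      push_cast
      rw [CharP.cast_eq_zero K p, zero_mul]
    rw [e4, zero_mul, ite_self, zero_smul, add_zero, e1] at e3
    rw [mul_sub, sub_mul, sub_eq_sub_iff_sub_eq_sub, ← neg_inj, neg_sub, neg_sub]
    exact e3.symm
  · exact hcc _
  · intro r
    exact Algebra.commutes r _
  · intro x y hx hy
    rw [add_mul, hx, hy, mul_add]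
  · intro x y hx hy
    rw [mul_assoc, hy, ← mul_assoc, hx, mul_assoc]

end Pool.Agent.PVA.G
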