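import Pool.Agent.PVA.G.Stm
import Pool.Agent.PVA.Stm2

/-!
# Piece GFI: assembly of part 3
-/

namespace Pool.Agent.PVA.G

noncomputable section

namespace GFI

variable {K g : Type} [Field K] [LieRing g] [LieAlgebra K g] (β : InvForm K g)

theorem exp1 {n : ℕ} (b : Module.Basis (Fin n) K g) (b' : Fin n → g)
    (hd : ∀ i j, β.B (b i) (b' j) = if i = j then 1 else 0) (y : g) :
    ∑ i, β.B y (b' i) • b i = y := by
  have h : ∀ i, β.B y (b' i) = b.repr y i := by
    intro i
    have h0 := congrArg (fun z => β.B z (b' i)) (b.sum_repr y)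
    simp only [map_sum, LinearMap.sum_apply, map_smul, LinearMap.smul_apply, hd, smul_eq_mul,
      mul_ite, mul_one, mul_zero, Finset.sum_ite_eq', Finset.mem_univ, if_true] at h0
    exact h0.symm
  simp only [h]
  exact b.sum_repr y

theorem exp2 {n : ℕ} (b : Module.Basis (Fin n) K g) (b' : Fin n → g)
    (hd : ∀ i j, β.B (b i) (b' j) = if i = j then 1 else 0) (y : g) :
    ∑ i, β.B y (b i) • b' i = y := by
  set w := ∑ i, β.B y (b i) • b' i - y with hw
  have h1 : ∀ j, β.B (b j) w = 0 := by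
    intro j
    rw [hw, map_sub, map_sum]
    simp [hd, β.symm y (b j)]
  have h2 : ∀ x, β.B x w = 0 := by
    intro x
    have h0 := congrArg (fun z => β.B z w) (b.sum_repr x)
    simp only [map_sum, LinearMap.sum_apply, map_smul, LinearMap.smul_apply, h1, smul_zero,
      Finset.sum_const_zero] at h0
    exact h0.symm
  have h3 : w = 0 := by
    rw [← exp1 β b b' hd w]
    refine Finset.sum_eq_zero fun i _ => ?_
    rw [β.symm, h2, zero_smul]
  exact sub_eq_zero.1 h3

variable {h0 : g} {W : Type} [AddCommGroup W] [Module K W] {A : g →ₗ[K] Module.End K W}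

/-- the operator -/
def EE {n : ℕ} (b : Module.Basis (Fin n) K g) (b' : Fin n → g)
    (A : g →ₗ[K] Module.End K W) : Module.End K W :=
  ∑ i, A (b i) * A (b' i)

theorem comm {n : ℕ} (b : Module.Basis (Fin n) K g) (b' : Fin n → g)
    (hd : ∀ i j, β.B (b i) (b' j) = if i = j then 1 else 0) (hA : IsHei β h0 W A) (x : g) :
    EE b b' A * A x - A x * EE b b' A = -(2 : K) • A ⁅h0, x⁆ := by
  have e1 : ∀ i, A (b i) * A (b' i) * A x - A x * (A (b i) * A (b' i)) =
      A (β.B h0 ⁅b' i, x⁆ • b i + β.B h0 ⁅b i, x⁆ • b' i) := by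
    intro i
    have h1 := hA (b' i) x
    have h2 := hA (b i) x
    have h3 : A (b i) * A (b' i) * A x - A x * (A (b i) * A (b' i)) =
        A (b i) * (A (b' i) * A x - A x * A (b' i)) +
          (A (b i) * A x - A x * A (b i)) * A (b' i) := by noncomm_ring
    rw [h3, h1, h2, map_add, map_smul, map_smul]
    simp
  have e2 : ∀ y, β.B h0 ⁅y, x⁆ = β.B (-⁅h0, x⁆) y := by
    intro y
    rw [← lie_skew y x, map_neg, ← β.inv, map_neg, LinearMap.neg_apply]
  rw [EE, Finset.sum_mul, Finset.mul_sum, ← Finset.sum_sub_distrib]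
  simp only [e1, e2]
  rw [← map_sum, Finset.sum_add_distrib, exp1 β b b' hd, exp2 β b b' hd, ← two_smul K,
    map_smul, map_neg, smul_neg, neg_smul]

theorem powc {A0 E : Module.End K W} {c : K} (h : E * A0 - A0 * E = -c • A0) (k : ℕ) :
    E ^ k * A0 = A0 * (E - c • (1 : Module.End K W)) ^ k := by
  have h1 : E * A0 = A0 * (E - c • (1 : Module.End K W)) := by
    rw [mul_sub, mul_smul_comm, mul_one, sub_eq_add_neg (A0 * E), ← neg_smul, ← h]
    abel
  induction k with
  | zero => simp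
  | succ k ih => rw [pow_succ', mul_assoc, ih, ← mul_assoc, h1, mul_assoc, ← pow_succ']

theorem step {κ hv : K} (hGSP : S_GSP) {n : ℕ} (b : Module.Basis (Fin n) K g) (b' : Fin n → g)
    (D : V β κ →ₗ[K] V β κ) (hD : IsD β κ hv b b' D)
    (θ θ' : V β κ →ₗ[K] W) (h : Eqv β κ h0 W A θ) (h' : Eqv β κ h0 W A θ')
    (hv' : θ' (vac β κ) = EE b b' A (θ (vac β κ))) (v : V β κ) :
    θ (D v) = θ' v := by
  let M : Submodule K (V β κ) := LinearMap.eqLocus (θ ∘ₗ D) θ'
  have hM : M = ⊤ := by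
    refine hGSP K g β κ M ?_ ?_
    · change θ (D (vac β κ)) = θ' (vac β κ)
      rw [hD.1, hv', sug, Finset.sum_smul, map_sum, EE, LinearMap.sum_apply]
      refine Finset.sum_congr rfl fun i _ => ?_
      rw [mul_smul, h _ _ _ (by norm_num), h _ _ _ (by norm_num)]
      simp [op]
    · intro x m v hm hvM
      change θ (D (xx β x m • v)) = θ' (xx β x m • v)
      change θ (D v) = θ' v at hvM
      have hz : op β h0 W A x (m - 2) = 0 := by
        unfold op
        rw [if_neg (by omega), if_neg (by omega)]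
      rw [hD.2, map_sub, θ.map_smul, h _ _ _ hm, h _ _ _ (by omega), h' _ _ _ hm, hvM, hz]
      simp
  have : v ∈ M := by rw [hM]; trivial
  exact this

end GFI

open GFI

theorem t_GFI (hGSU : S_GSU) (hGCN : S_GCN) (hGIN : S_GIN) (hGSP : S_GSP) (hGHE : S_GHE)
    (hGTH : S_GTH) (hMUL : Pool.Agent.PVA.S_MUL) (hGZD : S_GZD) : S_GFI := by
  intro K g _ _ _ p _ _ β P hp hP hv n b b' hdc hex κ
  obtain ⟨h0, e, α, hα, he, hh⟩ := hex
  have h2 : (2 : K) ≠ 0 := by
    intro h
    have h1 : ((2 : ℕ) : K) = 0 := by exact_mod_cast h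
    rw [CharP.cast_eq_zero_iff K p] at h1
    exact absurd (Nat.le_of_dvd (by norm_num) h1) (by omega)
  obtain ⟨D, hD⟩ := hGSU K g β κ hv n b b' hdc
  refine ⟨(D ^ p) (vac β κ), hGIN K g β κ _ (fun x m hm =>
    hGCN K g p β κ hv n b b' D hp hD x m hm), ?_⟩
  rintro ⟨z, hz, h⟩
  obtain ⟨A, hA, hA1⟩ := hGHE K g β n b h0 h2
  have hTH := hGTH hMUL K g β κ h0 (MvPolynomial (Fin n) K) A hA
  have hpow : ∀ (k : ℕ) (θ : V β κ →ₗ[K] MvPolynomial (Fin n) K),
      Eqv β κ h0 (MvPolynomial (Fin n) K) A θ →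
      θ ((D ^ k) (vac β κ)) = (EE b b' A ^ k) (θ (vac β κ)) := by
    intro k
    induction k with
    | zero => intro θ _; simp
    | succ k ih =>
      intro θ hθ
      obtain ⟨θ', h1, h3⟩ := hTH (EE b b' A (θ (vac β κ)))
      rw [pow_succ', Module.End.mul_apply, step β hGSP b b' D hD θ θ' hθ h3 h1, ih θ' h3, h1,
        pow_succ, Module.End.mul_apply]
  obtain ⟨θ₁, h11, h12⟩ := hTH 1
  obtain ⟨θ₂, h21, h22⟩ := hTH (A e 1)
  have h3 := hGZD K g p β P hp hP κ h0 e (MvPolynomial (Fin n) K) A hA θ₁ θ₂ h12 h22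
    (by rw [h21, h11]) z hz
  rw [← h, hpow p θ₂ h22, hpow p θ₁ h12, h21, h11] at h3
  have h4 := comm β b b' hdc.1 hA e
  rw [hh, map_smul, smul_smul] at h4
  have h5 : EE b b' A * A e - A e * EE b b' A = -(2 * α) • A e := by
    rw [h4]; congr 1; ring
  have h6 := powc h5 p
  have : CharP (Module.End K (MvPolynomial (Fin n) K)) p :=
    charP_of_injective_algebraMap
      (algebraMap K (Module.End K (MvPolynomial (Fin n) K))).injective p
  have h7 : (EE b b' A - (2 * α) • (1 : Module.End K (MvPolynomial (Fin n) K))) ^ p =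
      EE b b' A ^ p - ((2 * α) • (1 : Module.End K (MvPolynomial (Fin n) K))) ^ p :=
    sub_pow_char_of_commute p ((Commute.one_right _).smul_right _)
  rw [h7, smul_pow, one_pow] at h6
  have h8 := congrArg (fun T : Module.End K (MvPolynomial (Fin n) K) => T 1) h6
  simp only [Module.End.mul_apply, LinearMap.sub_apply, LinearMap.smul_apply,
    Module.End.one_apply, map_sub, map_smul] at h8
  rw [h3] at h8
  have h9 : (2 * α) ^ p • (A e 1) = 0 := by
    have := sub_eq_self.1 h8.symm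
    exact this
  rcases smul_eq_zero.1 h9 with h10 | h10
  · exact (pow_ne_zero p (mul_ne_zero h2 hα)) h10
  · exact hA1 e he h10

end

end Pool.Agent.PVA.G
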