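import Pool.Agent.PVA.G.Stm

/-!
# GHE: the Heisenberg representation on polynomials
-/

namespace Pool.Agent.PVA.G

open MvPolynomial

noncomputable section

namespace GHEx

variable {K g : Type} [Field K] [LieRing g] [LieAlgebra K g] (β : InvForm K g)
  {n : ℕ} (b : Module.Basis (Fin n) K g) (h0 : g)

/-- half of the 2-form -/
def hf (x : g) : g →ₗ[K] K := (2 : K)⁻¹ • ((β.B h0).comp (LieModule.toEnd K g g x))

/-- the linear form -/
def L : g →ₗ[K] MvPolynomial (Fin n) K := b.constr K (fun j => X j)

/-- the derivation -/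
def dv (x : g) : Derivation K (MvPolynomial (Fin n) K) (MvPolynomial (Fin n) K) :=
  mkDerivation K fun j => C (hf β h0 x (b j))

theorem hf_apply (x y : g) : hf β h0 x y = (2 : K)⁻¹ * β.B h0 ⁅x, y⁆ := rfl

theorem L_basis (j : Fin n) : L b (b j) = X j := by
  unfold L
  rw [Module.Basis.constr_basis]

theorem dv_X (x : g) (j : Fin n) : dv β b h0 x (X j) = C (hf β h0 x (b j)) := by
  unfold dv
  rw [mkDerivation_X]

theorem dv_L (x y : g) : dv β b h0 x (L b y) = C (hf β h0 x y) := by
  have h : (dv β b h0 x : MvPolynomial (Fin n) K →ₗ[K] MvPolynomial (Fin n) K).comp (L b) =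
      (Algebra.linearMap K (MvPolynomial (Fin n) K)).comp (hf β h0 x) := by
    refine b.ext fun j => ?_
    rw [LinearMap.comp_apply, LinearMap.comp_apply, L_basis]
    exact dv_X β b h0 x j
  exact LinearMap.congr_fun h y

theorem dv_comm (x y : g) (f : MvPolynomial (Fin n) K) :
    dv β b h0 x (dv β b h0 y f) = dv β b h0 y (dv β b h0 x f) := by
  have h : ⁅dv β b h0 x, dv β b h0 y⁆ = 0 := by
    refine derivation_ext fun j => ?_
    rw [Derivation.commutator_apply, dv_X, dv_X, derivation_C, derivation_C, sub_zero,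
      Derivation.zero_apply]
  have h2 := congrArg (fun D : Derivation K (MvPolynomial (Fin n) K) (MvPolynomial (Fin n) K) =>
    D f) h
  simp only [Derivation.commutator_apply, Derivation.zero_apply] at h2
  exact sub_eq_zero.1 h2

theorem dv_add (x y : g) (f : MvPolynomial (Fin n) K) :
    dv β b h0 (x + y) f = dv β b h0 x f + dv β b h0 y f := by
  have h : dv β b h0 (x + y) = dv β b h0 x + dv β b h0 y := by
    refine derivation_ext fun j => ?_
    rw [Derivation.add_apply, dv_X, dv_X, dv_X, ← C_add, hf_apply, hf_apply, hf_apply, add_lie,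
      map_add, mul_add]
  rw [h, Derivation.add_apply]

theorem dv_smul (r : K) (x : g) (f : MvPolynomial (Fin n) K) :
    dv β b h0 (r • x) f = r • dv β b h0 x f := by
  have h : dv β b h0 (r • x) = r • dv β b h0 x := by
    refine derivation_ext fun j => ?_
    rw [Derivation.smul_apply, dv_X, dv_X, smul_eq_C_mul, ← C_mul, hf_apply, hf_apply, smul_lie,
      map_smul, smul_eq_mul]
    congr 1
    ring
  rw [h, Derivation.smul_apply]

/-- the representation -/
def A : g →ₗ[K] Module.End K (MvPolynomial (Fin n) K) where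
  toFun x := LinearMap.mulLeft K (L b x) +
    (dv β b h0 x : MvPolynomial (Fin n) K →ₗ[K] MvPolynomial (Fin n) K)
  map_add' x y := by
    refine LinearMap.ext fun f => ?_
    show L b (x + y) * f + dv β b h0 (x + y) f =
      (L b x * f + dv β b h0 x f) + (L b y * f + dv β b h0 y f)
    rw [dv_add, map_add]
    ring
  map_smul' r x := by
    refine LinearMap.ext fun f => ?_
    show L b (r • x) * f + dv β b h0 (r • x) f = r • (L b x * f + dv β b h0 x f)
    rw [dv_smul, map_smul, smul_add, smul_mul_assoc]

theorem A_apply (x : g) (f : MvPolynomial (Fin n) K) :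
    A β b h0 x f = L b x * f + dv β b h0 x f := rfl

end GHEx

open GHEx

theorem t_GHE : S_GHE := by
  intro K g _ _ _ β n b h0 h2
  refine ⟨GHEx.A β b h0, fun x y => ?_, fun x hx h => ?_⟩
  · refine LinearMap.ext fun f => ?_
    show GHEx.A β b h0 x (GHEx.A β b h0 y f) - GHEx.A β b h0 y (GHEx.A β b h0 x f) =
      β.B h0 ⁅x, y⁆ • f
    simp only [A_apply, map_add, Derivation.leibniz, smul_eq_mul]
    rw [dv_L, dv_L, dv_comm β b h0 y x, hf_apply, hf_apply, ← lie_skew x y, map_neg,
      smul_eq_C_mul]
    have h3 : (C (2 : K)⁻¹ : MvPolynomial (Fin n) K) + C (2 : K)⁻¹ = 1 := by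
      rw [← C_add, ← C_1]
      congr 1
      field_simp
      norm_num
    simp only [C_mul, map_neg]
    linear_combination (-C (β.B h0 ⁅y, x⁆) * f) * h3
  · have h4 : L b x = 0 := by
      have h5 := h
      rw [A_apply, mul_one, Derivation.map_one_eq_zero, add_zero] at h5
      exact h5
    apply hx
    rw [← b.forall_coord_eq_zero_iff]
    intro j
    have h6 : (aeval (Pi.single j 1 : Fin n → K)).toLinearMap.comp (L b) = b.coord j := by
      refine b.ext fun i => ?_
      rw [LinearMap.comp_apply, L_basis, AlgHom.toLinearMap_apply, aeval_X,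
        Module.Basis.coord_apply, Module.Basis.repr_self, Finsupp.single_apply, Pi.single_apply]
    rw [← h6, LinearMap.comp_apply, h4, map_zero]

end

end Pool.Agent.PVA.G
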