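import Pool.Agent.PVA.G.Stm

/-!
# Piece GSK: the key computation for the Sugawara vector
-/

set_option autoImplicit false

namespace Pool.Agent.PVA.G

namespace GSKx

variable {K g : Type} [Field K] [LieRing g] [LieAlgebra K g] (β : InvForm K g)

theorem xx_add (x y : g) (n : ℤ) : xx β (x + y) n = xx β x n + xx β y n := by
  unfold xx; rw [map_add, map_add]

theorem xx_smul (r : K) (x : g) (n : ℤ) : xx β (r • x) n = r • xx β x n := by
  unfold xx; rw [map_smul, map_smul]

theorem swp (κ r : K) (z : U β) (v : V β κ) : z • (r • v) = r • (z • v) := smul_comm _ _ _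

theorem sml (κ r : K) (z : U β) (v : V β κ) : (r • z) • v = r • (z • v) := smul_assoc _ _ _

variable {β} {n : ℕ} {b : Module.Basis (Fin n) K g} {b' : Fin n → g}

theorem E1 (hd : ∀ i j, β.B (b i) (b' j) = if i = j then 1 else 0) (y : g) :
    ∑ j, β.B y (b' j) • b j = y := by
  have h : ∀ j, β.B y (b' j) = b.repr y j := by
    intro j
    conv_lhs => rw [← b.sum_repr y]
    rw [map_sum, LinearMap.sum_apply]
    simp only [map_smul, LinearMap.smul_apply, hd, smul_eq_mul, mul_ite, mul_one, mul_zero,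
      Finset.sum_ite_eq', Finset.mem_univ, if_true]
  simp only [h]
  exact b.sum_repr y

theorem E2 (hd : ∀ i j, β.B (b i) (b' j) = if i = j then 1 else 0) (y : g) :
    ∑ j, β.B y (b j) • b' j = y := by
  have h0 : ∀ k, β.B (y - ∑ j, β.B y (b j) • b' j) (b k) = 0 := by
    intro k
    rw [map_sub, LinearMap.sub_apply, map_sum, LinearMap.sum_apply]
    have : ∑ j, (β.B (β.B y (b j) • b' j)) (b k) = β.B y (b k) := by
      simp only [map_smul, LinearMap.smul_apply, smul_eq_mul, β.symm (b' _) (b k), hd, mul_ite,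
        mul_one, mul_zero, Finset.sum_ite_eq, Finset.mem_univ, if_true]
    rw [this, sub_self]
  have h1 : ∀ z, β.B (y - ∑ j, β.B y (b j) • b' j) z = 0 := by
    intro z
    have : β.B (y - ∑ j, β.B y (b j) • b' j) = 0 :=
      b.ext (fun k => by rw [h0]; simp)
    rw [this]
    simp
  have h2 := E1 hd (y - ∑ j, β.B y (b j) • b' j)
  simp only [h1, zero_smul, Finset.sum_const_zero] at h2
  exact (sub_eq_zero.1 h2.symm).symm

variable {W : Type} [AddCommGroup W] [Module K W]

theorem cas_symm (hd : ∀ i j, β.B (b i) (b' j) = if i = j then 1 else 0)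
    (Φ : g →ₗ[K] g →ₗ[K] W) : ∑ i, Φ (b i) (b' i) = ∑ i, Φ (b' i) (b i) := by
  have h1 : ∀ i, Φ (b' i) (b i) = ∑ j, β.B (b' i) (b' j) • Φ (b j) (b i) := by
    intro i
    conv_lhs => rw [← E1 hd (b' i)]
    rw [map_sum, LinearMap.sum_apply]
    simp only [map_smul, LinearMap.smul_apply]
  simp only [h1]
  rw [Finset.sum_comm]
  apply Finset.sum_congr rfl
  intro j _
  conv_lhs => rw [← E1 hd (b' j)]
  rw [map_sum]
  apply Finset.sum_congr rfl
  intro i _
  rw [map_smul, β.symm (b' j) (b' i)]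

theorem cas_inv (hd : ∀ i j, β.B (b i) (b' j) = if i = j then 1 else 0)
    (Φ : g →ₗ[K] g →ₗ[K] W) (x : g) :
    ∑ i, Φ (b i) ⁅x, b' i⁆ + ∑ i, Φ ⁅x, b i⁆ (b' i) = 0 := by
  have h1 : ∀ i, Φ (b i) ⁅x, b' i⁆ = ∑ j, β.B ⁅x, b' i⁆ (b j) • Φ (b i) (b' j) := by
    intro i
    conv_lhs => rw [← E2 hd ⁅x, b' i⁆]
    rw [map_sum]
    simp only [map_smul]
  have h2 : ∀ i, Φ ⁅x, b i⁆ (b' i) = ∑ j, β.B ⁅x, b i⁆ (b' j) • Φ (b j) (b' i) := by
    intro i
    conv_lhs => rw [← E1 hd ⁅x, b i⁆]
    rw [map_sum, LinearMap.sum_apply]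
    simp only [map_smul, LinearMap.smul_apply]
  simp only [h1, h2]
  rw [Finset.sum_comm (f := fun i j => β.B ⁅x, b i⁆ (b' j) • Φ (b j) (b' i)),
    ← Finset.sum_add_distrib]
  apply Finset.sum_eq_zero
  intro i _
  rw [← Finset.sum_add_distrib]
  apply Finset.sum_eq_zero
  intro j _
  rw [← add_smul, β.inv x (b' i) (b j), β.inv x (b j) (b' i), ← map_add, ← lie_skew (b' i) (b j),
    neg_add_cancel, map_zero, zero_smul]

theorem cas_comm (hd : ∀ i j, β.B (b i) (b' j) = if i = j then 1 else 0) :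
    ∑ i, ⁅b i, b' i⁆ = 0 := by
  have h1 : ∀ i, ⁅b i, b' i⁆ = ∑ j, β.B (b' i) (b' j) • ⁅b i, b j⁆ := by
    intro i
    conv_lhs => rw [← E1 hd (b' i)]
    rw [lie_sum]
    simp only [lie_smul]
  simp only [h1]
  rw [← Finset.sum_product']
  refine Finset.sum_involution (fun p _ => (p.2, p.1)) ?_ ?_ ?_ ?_
  · rintro ⟨i, j⟩ _
    change β.B (b' i) (b' j) • ⁅b i, b j⁆ + β.B (b' j) (b' i) • ⁅b j, b i⁆ = 0
    rw [β.symm (b' j) (b' i), ← smul_add, ← lie_skew (b i) (b j), neg_add_cancel, smul_zero]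
  · rintro ⟨i, j⟩ _ hne heq
    apply hne
    have : j = i := congrArg Prod.fst heq
    subst this
    change β.B (b' j) (b' j) • ⁅b j, b j⁆ = 0
    rw [lie_self, smul_zero]
  · rintro ⟨i, j⟩ _
    simp
  · rintro ⟨i, j⟩ _
    rfl

end GSKx

open GSKx

theorem t_GSK (h1 : S_GBA) : S_GSK := by
  intro K g _ _ _ β κ hv n b b' hdc x m hm
  obtain ⟨hd, hcas⟩ := hdc
  obtain ⟨-, -, -, hk⟩ := h1 K g β
  obtain ⟨hvac, -, -, hcom⟩ := hk κ
  have hsug : sug β b b' • vac β κ =
      ∑ i, xx β (b i) (-1) • (xx β (b' i) (-1) • vac β κ) := by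
    unfold sug
    rw [Finset.sum_smul]
    simp only [mul_smul]
  have one : ∀ (x z : g) (m : ℤ), 0 ≤ m → xx β x m • (xx β z (-1) • vac β κ) =
      xx β ⁅x, z⁆ (m - 1) • vac β κ + (if m = 1 then β.B x z * κ else 0) • vac β κ := by
    intro x z m hm
    rw [hcom, hvac x m hm, smul_zero, zero_add, ← sub_eq_add_neg]
    congr 2
    by_cases h : m = 1
    · subst h; simp
    · rw [if_neg h, if_neg (by omega)]
  have two : ∀ (y z : g), xx β x m • (xx β y (-1) • (xx β z (-1) • vac β κ)) =
      xx β y (-1) • (xx β ⁅x, z⁆ (m - 1) • vac β κ) +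
        (if m = 1 then β.B x z * κ else 0) • (xx β y (-1) • vac β κ) +
      xx β ⁅x, y⁆ (m - 1) • (xx β z (-1) • vac β κ) +
      (if m = 1 then β.B x y * κ else 0) • (xx β z (-1) • vac β κ) := by
    intro y z
    rw [hcom, one x z m hm, smul_add, swp, ← sub_eq_add_neg]
    congr 2
    by_cases h : m = 1
    · subst h; simp
    · rw [if_neg h, if_neg (by omega)]
  -- the linear map `z ↦ z_(-1) vac`
  let L : g →ₗ[K] V β κ :=
    { toFun := fun z => xx β z (-1) • vac β κ
      map_add' := fun y z => by rw [xx_add, add_smul]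
      map_smul' := fun r z => by rw [xx_smul, sml]; rfl }
  have hL : ∀ z, xx β z (-1) • vac β κ = L z := fun z => rfl
  rw [hsug, Finset.smul_sum]
  simp only [two]
  by_cases h0 : m = 0
  · subst h0
    have hz : ((2 * (κ + hv) * ((0 : ℤ) : K)) : K) = 0 := by simp
    rw [hz, zero_smul]
    let Φ : g →ₗ[K] g →ₗ[K] V β κ := LinearMap.mk₂ K
      (fun y z => xx β y (-1) • (xx β z (-1) • vac β κ))
      (fun y y' z => by rw [xx_add, add_smul])
      (fun r y z => by rw [xx_smul, sml])
      (fun y z z' => by rw [xx_add, add_smul, smul_add])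
      (fun r y z => by rw [xx_smul, sml, swp])
    have h := cas_inv hd Φ x
    rw [← Finset.sum_add_distrib] at h
    rw [← h]
    apply Finset.sum_congr rfl
    intro i _
    have h01 : ¬ ((0 : ℤ) = 1) := by norm_num
    rw [if_neg h01, if_neg h01, zero_smul, zero_smul, add_zero, add_zero, zero_sub]
    rfl
  · have hm1 : 0 ≤ m - 1 := by omega
    have hz : ∀ i, xx β (b i) (-1) • (xx β ⁅x, b' i⁆ (m - 1) • vac β κ) = 0 := by
      intro i
      rw [hvac _ _ hm1, smul_zero]
    simp only [hz, zero_add, one _ _ _ hm1]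
    by_cases h1' : m = 1
    · subst h1'
      have h01 : ¬ ((1 : ℤ) - 1 = 1) := by norm_num
      have e1 : (1 : ℤ) - 1 - 1 = -1 := by norm_num
      have e2 : (1 : ℤ) - 2 = -1 := by norm_num
      simp only [if_neg h01, if_true, zero_smul, add_zero, e1, e2]
      rw [Finset.sum_add_distrib, Finset.sum_add_distrib]
      simp only [hL, ← map_smul]
      rw [← map_sum, ← map_sum, ← map_sum, ← map_add, ← map_add]
      congr 1
      have a1 : ∑ i, (β.B x (b' i) * κ) • b i = κ • x := by
        conv_rhs => rw [← E1 hd x, Finset.smul_sum]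
        apply Finset.sum_congr rfl
        intro i _
        rw [smul_smul, mul_comm]
      have a2 : ∑ i, (β.B x (b i) * κ) • b' i = κ • x := by
        conv_rhs => rw [← E2 hd x, Finset.smul_sum]
        apply Finset.sum_congr rfl
        intro i _
        rw [smul_smul, mul_comm]
      have a3 : ∑ i, ⁅⁅x, b i⁆, b' i⁆ = (2 * hv) • x := by
        let Ψ : g →ₗ[K] g →ₗ[K] g := LinearMap.mk₂ K
          (fun y z => ⁅y, ⁅z, x⁆⁆)
          (fun y y' z => by rw [add_lie])
          (fun r y z => by rw [smul_lie])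
          (fun y z z' => by rw [add_lie, lie_add])
          (fun r y z => by rw [smul_lie, lie_smul])
        have h := cas_symm hd Ψ
        have h' : ∑ i, ⁅b' i, ⁅b i, x⁆⁆ = (2 * hv) • x := by
          rw [← hcas x]
          exact h.symm
        rw [← h']
        apply Finset.sum_congr rfl
        intro i _
        rw [← lie_skew ⁅x, b i⁆ (b' i), ← lie_skew x (b i), lie_neg, neg_neg]
      rw [a1, a2, a3, ← add_smul, ← add_smul]
      congr 1
      push_cast
      ring
    · have hm2 : 0 ≤ m - 1 - 1 := by omega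
      have hm2' : 0 ≤ m - 2 := by omega
      simp only [if_neg h1', zero_smul, add_zero, zero_add]
      rw [hvac x (m - 2) hm2', smul_zero]
      simp only [hvac _ _ hm2, zero_add]
      rw [← Finset.sum_smul]
      by_cases h2 : m - 1 = 1
      · simp only [if_pos h2]
        have : ∑ i, β.B ⁅x, b i⁆ (b' i) * κ = 0 := by
          rw [← Finset.sum_mul]
          have : ∑ i, β.B ⁅x, b i⁆ (b' i) = 0 := by
            simp only [β.inv]
            rw [← map_sum, cas_comm hd, map_zero]
          rw [this, zero_mul]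
        rw [this, zero_smul]
      · simp only [if_neg h2, Finset.sum_const_zero, zero_smul]

end Pool.Agent.PVA.G
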