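import Pool.Agent.PVA.G.Stm

/-!
# Piece GSP: the vacuum module is spanned by the products of negative modes applied to the vacuum
-/

namespace Pool.Agent.PVA.G

namespace GSP

noncomputable section

variable {K g : Type} [Field K] [LieRing g] [LieAlgebra K g] (β : InvForm K g) (κ : K)

/-- the subspaces which contain the vacuum and are stable under the negative modes -/
def Good (M : Submodule K (V β κ)) : Prop :=
  vac β κ ∈ M ∧ ∀ (x : g) (n : ℤ) (v : V β κ), n < 0 → v ∈ M → xx β x n • v ∈ M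

/-- the smallest one -/
def N : Submodule K (V β κ) := sInf {M | Good β κ M}

theorem good_N : Good β κ (N β κ) := by
  refine ⟨?_, fun x n v hn hv => ?_⟩
  · unfold N
    rw [Submodule.mem_sInf]
    exact fun M hM => hM.1
  · unfold N at hv ⊢
    rw [Submodule.mem_sInf] at hv ⊢
    exact fun M hM => hM.2 x n v hn (hv M hM)

theorem N_le {M : Submodule K (V β κ)} (hM : Good β κ M) : N β κ ≤ M := sInf_le hM

/-- the vectors of `N` which all modes map into `N` -/
def N' : Submodule K (V β κ) where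
  carrier := {v | v ∈ N β κ ∧ ∀ (x : g) (n : ℤ), xx β x n • v ∈ N β κ}
  add_mem' := by
    rintro v w ⟨h1, h2⟩ ⟨h3, h4⟩
    refine ⟨(N β κ).add_mem h1 h3, fun x n => ?_⟩
    rw [smul_add]
    exact (N β κ).add_mem (h2 x n) (h4 x n)
  zero_mem' := ⟨(N β κ).zero_mem, fun x n => by rw [smul_zero]; exact (N β κ).zero_mem⟩
  smul_mem' := by
    rintro r v ⟨h1, h2⟩
    refine ⟨(N β κ).smul_mem r h1, fun x n => ?_⟩
    have h3 : xx β x n • (r • v) = r • (xx β x n • v) := smul_comm _ _ _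
    rw [h3]
    exact (N β κ).smul_mem r (h2 x n)

theorem good_N' (h : S_GBA) : Good β κ (N' β κ) := by
  obtain ⟨-, -, -, hκ⟩ := h K g β
  obtain ⟨hvac, -, -, hcomm⟩ := hκ κ
  have hN := good_N β κ
  refine ⟨⟨hN.1, fun x n => ?_⟩, fun x n v hn hv => ⟨hN.2 x n v hn hv.1, fun y m => ?_⟩⟩
  · by_cases h : n < 0
    · exact hN.2 x n _ h hN.1
    · rw [hvac x n (not_lt.1 h)]
      exact (N β κ).zero_mem
  · rw [hcomm y x m n v]
    exact (N β κ).add_mem ((N β κ).add_mem (hN.2 _ _ _ hn (hv.2 _ _)) (hv.2 _ _))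
      ((N β κ).smul_mem _ hv.1)

theorem stable (h : S_GBA) (x : g) (n : ℤ) (v : V β κ) (hv : v ∈ N β κ) : xx β x n • v ∈ N β κ :=
  (N_le β κ (good_N' β κ h) hv).2 x n

theorem stable_all (h : S_GBA) (z : U β) : ∀ v : V β κ, v ∈ N β κ → z • v ∈ N β κ := by
  obtain ⟨hind, -, -, hκ⟩ := h K g β
  obtain ⟨-, hcc, -, -⟩ := hκ κ
  refine hind (fun z => ∀ v : V β κ, v ∈ N β κ → z • v ∈ N β κ) ?_ ?_ ?_ ?_ ?_ z
  · intro x n v hv
    exact stable β κ h x n v hv
  · intro v hv
    rw [hcc v]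
    exact (N β κ).smul_mem κ hv
  · intro r v hv
    rw [algebraMap_smul]
    exact (N β κ).smul_mem r hv
  · intro x y hx hy v hv
    rw [add_smul]
    exact (N β κ).add_mem (hx v hv) (hy v hv)
  · intro x y hx hy v hv
    rw [mul_smul]
    exact hx _ (hy v hv)

end

end GSP

theorem t_GSP (h : S_GBA) : S_GSP := by
  intro K g _ _ _ β κ M h1 h2
  rw [eq_top_iff]
  intro v _
  apply GSP.N_le β κ ⟨h1, h2⟩
  obtain ⟨-, -, -, hκ⟩ := h K g β
  obtain ⟨-, -, hz, -⟩ := hκ κ
  obtain ⟨z, rfl⟩ := hz v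
  exact GSP.stable_all β κ h z _ (GSP.good_N β κ).1

end Pool.Agent.PVA.G
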