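import Pool.Agent.PVA.G.Stm

/-!
# Piece GSU: the Sugawara operator on the vacuum module, for any `g` (port of SUG.lean)
-/

namespace Pool.Agent.PVA.G

attribute [local instance 100] LieRing.ofAssociativeRing

noncomputable section

namespace GSU

variable {K g : Type} [Field K] [LieRing g] [LieAlgebra K g] (β : InvForm K g)

/-- the derivation, on the loop algebra -/
def dl0 (μ : K) : (ℤ →₀ g) →ₗ[K] (ℤ →₀ g) :=
  Finsupp.lsum K fun m => (μ * (m : K)) • Finsupp.lsingle (m - 2)

/-- the derivation -/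
def dl (μ : K) : Aff β →ₗ[K] Aff β :=
  (LinearMap.inl K (ℤ →₀ g) K).comp ((dl0 μ).comp (LinearMap.fst K (ℤ →₀ g) K))

theorem dl_mono (μ : K) (x : g) (n : ℤ) :
    dl β μ (Aff.mono β n x) = (μ * n) • Aff.mono β (n - 2) x := by
  refine Prod.ext ?_ ?_
  · change dl0 μ (Finsupp.single n x) = (μ * n) • Finsupp.single (n - 2) x
    simp [dl0]
  · change (0 : K) = (μ * n) • (0 : K)
    rw [smul_zero]

theorem dl_cen (μ : K) : dl β μ (Aff.cen β) = 0 := by
  refine Prod.ext ?_ ?_
  · change dl0 μ (0 : ℤ →₀ g) = 0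
    rw [map_zero]
  · rfl

theorem lie_cen (x : Aff β) : ⁅x, Aff.cen β⁆ = 0 := by
  rw [← lie_skew, Aff.cen_lie, neg_zero]

theorem dl_lie_mono (μ : K) (x y : g) (m n : ℤ) :
    dl β μ ⁅Aff.mono β m x, Aff.mono β n y⁆ =
      ⁅dl β μ (Aff.mono β m x), Aff.mono β n y⁆ + ⁅Aff.mono β m x, dl β μ (Aff.mono β n y)⁆ := by
  rw [Aff.lie_mono, map_add, map_smul, dl_cen, smul_zero, add_zero, dl_mono, dl_mono, dl_mono,
    smul_lie, lie_smul, Aff.lie_mono, Aff.lie_mono, smul_add, smul_add, smul_smul, smul_smul,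
    show m - 2 + n = m + n - 2 by ring, show m + (n - 2) = m + n - 2 by ring]
  have h : (μ * (m : K)) * (if m + n - 2 = 0 then ((m - 2 : ℤ) : K) * β.B x y else 0) +
      (μ * (n : K)) * (if m + n - 2 = 0 then (m : K) * β.B x y else 0) = 0 := by
    by_cases h0 : m + n - 2 = 0
    · rw [if_pos h0, if_pos h0]
      have h1 : n = 2 - m := by omega
      subst h1
      push_cast
      ring
    · rw [if_neg h0, if_neg h0]
      ring
  have h2 : (μ * ((m + n : ℤ) : K)) • Aff.mono β (m + n - 2) ⁅x, y⁆ =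
      (μ * (m : K)) • Aff.mono β (m + n - 2) ⁅x, y⁆ +
        (μ * (n : K)) • Aff.mono β (m + n - 2) ⁅x, y⁆ := by
    rw [← add_smul]
    congr 1
    push_cast
    ring
  rw [h2, add_add_add_comm, ← add_smul _ _ (Aff.cen β), h, zero_smul, add_zero]

theorem dl_lie (μ : K) (x y : Aff β) : dl β μ ⁅x, y⁆ = ⁅dl β μ x, y⁆ + ⁅x, dl β μ y⁆ := by
  refine Aff.ind β (P := fun x => dl β μ ⁅x, y⁆ = ⁅dl β μ x, y⁆ + ⁅x, dl β μ y⁆) ?_ ?_ ?_ x
  · intro a b ha hb
    rw [add_lie, map_add, ha, hb, map_add, add_lie, add_lie]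
    abel
  · intro m a
    refine Aff.ind β (P := fun y => dl β μ ⁅Aff.mono β m a, y⁆ =
      ⁅dl β μ (Aff.mono β m a), y⁆ + ⁅Aff.mono β m a, dl β μ y⁆) ?_ ?_ ?_ y
    · intro b c hb hc
      rw [lie_add, map_add, hb, hc, map_add, lie_add, lie_add]
      abel
    · intro n b
      exact dl_lie_mono β μ a b m n
    · intro r
      simp only [lie_smul, lie_cen, map_smul, dl_cen, smul_zero, map_zero, lie_zero, add_zero]
  · intro r
    simp only [smul_lie, Aff.cen_lie, map_smul, dl_cen, smul_zero, map_zero, zero_lie, add_zero]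

theorem ι_lie (x y : Aff β) : UniversalEnvelopingAlgebra.ι K ⁅x, y⁆ =
    UniversalEnvelopingAlgebra.ι K x * UniversalEnvelopingAlgebra.ι K y -
      UniversalEnvelopingAlgebra.ι K y * UniversalEnvelopingAlgebra.ι K x := by
  rw [LieHom.map_lie, LieRing.of_associative_ring_bracket]

variable (κ : K)

/-- the action -/
def pv : U β →ₐ[K] Module.End K (V β κ) := Algebra.lsmul K K (V β κ)

/-- the representation on the product -/
def rho (μ : K) : Aff β →ₗ⁅K⁆ Module.End K (V β κ × V β κ) where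
  toFun x := ((pv β κ (UniversalEnvelopingAlgebra.ι K x)) ∘ₗ LinearMap.fst K _ _).prod
    ((pv β κ (UniversalEnvelopingAlgebra.ι K x)) ∘ₗ LinearMap.snd K _ _ +
      (pv β κ (UniversalEnvelopingAlgebra.ι K (dl β μ x))) ∘ₗ LinearMap.fst K _ _)
  map_add' x y := by
    refine LinearMap.ext fun w => Prod.ext ?_ ?_
    · simp
    · simp; abel
  map_smul' r x := by
    refine LinearMap.ext fun w => Prod.ext ?_ ?_
    · simp
    · simp
  map_lie' {x y} := by
    refine LinearMap.ext fun w => Prod.ext ?_ ?_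
    · change UniversalEnvelopingAlgebra.ι K ⁅x, y⁆ • w.1 =
        UniversalEnvelopingAlgebra.ι K x • (UniversalEnvelopingAlgebra.ι K y • w.1) -
        UniversalEnvelopingAlgebra.ι K y • (UniversalEnvelopingAlgebra.ι K x • w.1)
      rw [ι_lie, sub_smul, mul_smul, mul_smul]
    · change UniversalEnvelopingAlgebra.ι K ⁅x, y⁆ • w.2 +
          UniversalEnvelopingAlgebra.ι K (dl β μ ⁅x, y⁆) • w.1 =
        (UniversalEnvelopingAlgebra.ι K x • (UniversalEnvelopingAlgebra.ι K y • w.2 +
            UniversalEnvelopingAlgebra.ι K (dl β μ y) • w.1) +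
          UniversalEnvelopingAlgebra.ι K (dl β μ x) • (UniversalEnvelopingAlgebra.ι K y • w.1)) -
        (UniversalEnvelopingAlgebra.ι K y • (UniversalEnvelopingAlgebra.ι K x • w.2 +
            UniversalEnvelopingAlgebra.ι K (dl β μ x) • w.1) +
          UniversalEnvelopingAlgebra.ι K (dl β μ y) • (UniversalEnvelopingAlgebra.ι K x • w.1))
      rw [dl_lie, map_add, ι_lie, ι_lie, ι_lie]
      simp only [add_smul, sub_smul, mul_smul, smul_add]
      abel

theorem rho_fst (μ : K) (x : Aff β) (w : V β κ × V β κ) :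
    (rho β κ μ x w).1 = UniversalEnvelopingAlgebra.ι K x • w.1 := rfl

theorem rho_snd (μ : K) (x : Aff β) (w : V β κ × V β κ) :
    (rho β κ μ x w).2 = UniversalEnvelopingAlgebra.ι K x • w.2 +
      UniversalEnvelopingAlgebra.ι K (dl β μ x) • w.1 := rfl

/-- the lifted representation -/
def Phi (μ : K) : U β →ₐ[K] Module.End K (V β κ × V β κ) :=
  UniversalEnvelopingAlgebra.lift K (rho β κ μ)

theorem Phi_ι (μ : K) (x : Aff β) :
    Phi β κ μ (UniversalEnvelopingAlgebra.ι K x) = rho β κ μ x :=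
  UniversalEnvelopingAlgebra.lift_ι_apply K (rho β κ μ) x

theorem Phi_fst (h1 : S_GBA) (μ : K) (z : U β) :
    ∀ w : V β κ × V β κ, (Phi β κ μ z w).1 = z • w.1 := by
  refine (h1 K g β).1 (fun z => ∀ w : V β κ × V β κ, (Phi β κ μ z w).1 = z • w.1)
    ?_ ?_ ?_ ?_ ?_ z
  · intro x n w
    rw [xx, Phi_ι, rho_fst]
  · intro w
    rw [cc, Phi_ι, rho_fst]
  · intro r w
    rw [AlgHom.commutes, Module.algebraMap_end_apply, Prod.smul_fst, algebraMap_smul]
  · intro x y hx hy w
    rw [map_add, LinearMap.add_apply, Prod.fst_add, hx, hy, add_smul]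
  · intro x y hx hy w
    rw [map_mul, Module.End.mul_apply, hx, hy, mul_smul]

end GSU

open GSU in
theorem t_GSU (h1 : S_GBA) (h2 : S_GSK) : S_GSU := by
  intro K g _ _ _ β κ hv n b b' hb
  obtain ⟨xv, cv, -, -⟩ := (h1 K g β).2.2.2 κ
  set μ : K := -(2 * (κ + hv)) with hμ
  let w0 : V β κ × V β κ := (vac β κ, sug β b b' • vac β κ)
  have hkill : ∀ z ∈ lid β κ, Phi β κ μ z w0 = 0 := by
    intro z hz
    refine Submodule.span_induction ?_ ?_ ?_ ?_ hz
    · rintro _ (⟨x, m, hm, rfl⟩ | h)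
      · rw [xx, Phi_ι]
        refine Prod.ext ?_ ?_
        · rw [rho_fst]; exact xv x m hm
        · rw [rho_snd, dl_mono, map_smul]
          change xx β x m • (sug β b b' • vac β κ) + ((μ * m) • xx β x (m - 2)) • vac β κ = 0
          rw [h2 K g β κ hv n b b' hb x m hm, smul_assoc, ← add_smul, hμ]
          ring_nf
          simp
      · rw [Set.mem_singleton_iff.1 h, map_sub, LinearMap.sub_apply, cc, Phi_ι, AlgHom.commutes,
          Module.algebraMap_end_apply, sub_eq_zero]
        refine Prod.ext ?_ ?_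
        · rw [rho_fst]; exact cv _
        · rw [rho_snd, dl_cen, map_zero, zero_smul, add_zero]
          exact cv _
    · rw [map_zero, LinearMap.zero_apply]
    · intro x y _ _ hx hy
      rw [map_add, LinearMap.add_apply, hx, hy, add_zero]
    · intro x y _ hy
      rw [smul_eq_mul, map_mul, Module.End.mul_apply, hy, map_zero]
  let D0 : U β →ₗ[K] V β κ :=
    { toFun := fun z => (Phi β κ μ z w0).2
      map_add' := fun x y => by simp
      map_smul' := fun r x => by simp }
  let D : V β κ →ₗ[K] V β κ :=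
    (((lid β κ).restrictScalars K).liftQ D0 (fun z hz => by
      change (Phi β κ μ z w0).2 = 0
      rw [hkill z hz]; rfl)) ∘ₗ
        (Submodule.Quotient.restrictScalarsEquiv K (lid β κ)).symm.toLinearMap
  have hD : ∀ z : U β, D (z • vac β κ) = (Phi β κ μ z w0).2 := by
    intro z
    have h : z • vac β κ = Submodule.Quotient.mk z := by
      unfold vac
      rw [← Submodule.Quotient.mk_smul, smul_eq_mul, mul_one]
    rw [h]
    rfl
  refine ⟨D, ?_, ?_⟩
  · have := hD 1
    rw [one_smul] at this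
    rw [this, map_one]
    rfl
  · intro x m v
    obtain ⟨z, rfl⟩ := Submodule.Quotient.mk_surjective _ v
    have h : (Submodule.Quotient.mk z : V β κ) = z • vac β κ := by
      unfold vac
      rw [← Submodule.Quotient.mk_smul, smul_eq_mul, mul_one]
    rw [h, ← mul_smul, hD, hD, map_mul, Module.End.mul_apply, xx, Phi_ι, rho_snd,
      Phi_fst β κ h1, dl_mono, map_smul, smul_assoc, hμ]
    change _ + (-(2 * (κ + hv)) * m) • (xx β x (m - 2) • z • vac β κ) = _
    rw [neg_mul, neg_smul, ← sub_eq_add_neg]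

end

end Pool.Agent.PVA.G
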