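import Pool.Agent.PVA.G.Stm

/-!
# Piece GTH: maps from the vacuum module which are linear over the negative modes
-/

set_option autoImplicit false

namespace Pool.Agent.PVA.G

attribute [local instance 100] LieRing.ofAssociativeRing

noncomputable section

namespace GTHP

variable {K g : Type} [Field K] [LieRing g] [LieAlgebra K g] (β : InvForm K g)

/-- the projection onto the negative modes -/
def neg : Aff β →ₗ[K] Aff β :=
  (LinearMap.inl K (ℤ →₀ g) K).comp
    ((Finsupp.lsum K fun n : ℤ => if n < 0 then (Finsupp.lsingle n : g →ₗ[K] ℤ →₀ g) else 0).comp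
      (LinearMap.fst K (ℤ →₀ g) K))

theorem neg_mono (n : ℤ) (x : g) :
    neg β (Aff.mono β n x) = if n < 0 then Aff.mono β n x else 0 := by
  change ((LinearMap.inl K (ℤ →₀ g) K)
    ((Finsupp.lsum K fun n : ℤ => if n < 0 then (Finsupp.lsingle n : g →ₗ[K] ℤ →₀ g) else 0)
      (Finsupp.single n x)) : (ℤ →₀ g) × K) = _
  rw [Finsupp.lsum_single]
  by_cases h : n < 0
  · simp only [if_pos h]
    rfl
  · simp only [if_neg h, LinearMap.zero_apply, map_zero]
    rfl

theorem neg_cen : neg β (Aff.cen β) = 0 := by
  change ((LinearMap.inl K (ℤ →₀ g) K)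
    ((Finsupp.lsum K fun n : ℤ => if n < 0 then (Finsupp.lsingle n : g →ₗ[K] ℤ →₀ g) else 0)
      (0 : ℤ →₀ g)) : (ℤ →₀ g) × K) = _
  rw [map_zero, map_zero]
  rfl

theorem neg_neg' (x : Aff β) : neg β (neg β x) = neg β x := by
  induction x using Aff.ind with
  | hadd x y hx hy => simp only [map_add, hx, hy]
  | hm n x =>
    rw [neg_mono]
    by_cases h : n < 0
    · rw [if_pos h, neg_mono, if_pos h]
    · rw [if_neg h, map_zero]
  | hc r => rw [map_smul, neg_cen, smul_zero, map_zero]

theorem neg_lie (x y : Aff β) : neg β ⁅neg β x, neg β y⁆ = ⁅neg β x, neg β y⁆ := by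
  induction x using Aff.ind with
  | hadd x x' hx hx' => simp only [map_add, add_lie, hx, hx']
  | hc r => rw [map_smul, neg_cen, smul_zero, zero_lie, map_zero]
  | hm m x =>
    induction y using Aff.ind with
    | hadd y y' hy hy' => simp only [map_add, lie_add, hy, hy']
    | hc r => rw [map_smul, neg_cen, smul_zero, lie_zero, map_zero]
    | hm n y =>
      rw [neg_mono, neg_mono]
      by_cases hm : m < 0
      · by_cases hn : n < 0
        · rw [if_pos hm, if_pos hn, Aff.lie_mono, if_neg (by omega), zero_smul, add_zero, neg_mono,
            if_pos (by omega)]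
        · rw [if_neg hn, lie_zero, map_zero]
      · rw [if_neg hm, zero_lie, map_zero]

/-- the coefficient of the central element -/
def zz : Aff β →ₗ[K] K := LinearMap.snd K (ℤ →₀ g) K

theorem zz_mono (n : ℤ) (x : g) : zz β (Aff.mono β n x) = 0 := rfl

theorem zz_cen : zz β (Aff.cen β) = 1 := rfl

theorem pos_lie (x y : Aff β) : neg β ⁅x - neg β x, y - neg β y⁆ = 0 ∧
    zz β ⁅x - neg β x, y - neg β y⁆ = 0 := by
  induction x using Aff.ind with
  | hadd x x' hx hx' =>
    have e : x + x' - neg β (x + x') = (x - neg β x) + (x' - neg β x') := by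
      rw [map_add]; abel
    rw [e, add_lie, map_add, map_add, hx.1, hx.2, hx'.1, hx'.2]
    simp
  | hc r =>
    rw [map_smul, neg_cen, smul_zero, sub_zero, smul_lie, Aff.cen_lie, smul_zero, map_zero,
      map_zero]
    exact ⟨rfl, rfl⟩
  | hm m x =>
    induction y using Aff.ind with
    | hadd y y' hy hy' =>
      have e : y + y' - neg β (y + y') = (y - neg β y) + (y' - neg β y') := by
        rw [map_add]; abel
      rw [e, lie_add, map_add, map_add, hy.1, hy.2, hy'.1, hy'.2]
      simp
    | hc r =>
      rw [map_smul, neg_cen, smul_zero, sub_zero, lie_smul, ← lie_skew, Aff.cen_lie, neg_zero,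
        smul_zero, map_zero, map_zero]
      exact ⟨rfl, rfl⟩
    | hm n y =>
      rw [neg_mono, neg_mono]
      by_cases hm : m < 0
      · rw [if_pos hm, sub_self, zero_lie, map_zero, map_zero]
        exact ⟨rfl, rfl⟩
      · by_cases hn : n < 0
        · rw [if_pos hn, sub_self, lie_zero, map_zero, map_zero]
          exact ⟨rfl, rfl⟩
        · rw [if_neg hm, if_neg hn, sub_zero, sub_zero, Aff.lie_mono, map_add, map_add, neg_mono,
            if_neg (by omega), zz_mono, map_smul, map_smul, neg_cen, zz_cen, smul_zero, zero_add,
            zero_add]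
          refine ⟨rfl, ?_⟩
          by_cases h : m + n = 0
          · have hm0 : m = 0 := by omega
            rw [if_pos h, hm0]
            simp
          · rw [if_neg h]
            simp

/-- the negative modes -/
def AA : LieSubalgebra K (Aff β) where
  carrier := {x | neg β x = x}
  add_mem' {x y} hx hy := by
    change neg β (x + y) = x + y
    rw [map_add, hx, hy]
  zero_mem' := map_zero _
  smul_mem' r x hx := by
    change neg β (r • x) = r • x
    rw [map_smul, hx]
  lie_mem' {x y} hx hy := by
    have h := neg_lie β x y
    change neg β x = x at hx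
    change neg β y = y at hy
    rw [hx, hy] at h
    exact h

/-- the nonnegative modes and the central element -/
def BB : LieSubalgebra K (Aff β) where
  carrier := {x | neg β x = 0}
  add_mem' {x y} hx hy := by
    change neg β (x + y) = 0
    rw [map_add, hx, hy, add_zero]
  zero_mem' := map_zero _
  smul_mem' r x hx := by
    change neg β (r • x) = 0
    rw [map_smul, hx, smul_zero]
  lie_mem' {x y} hx hy := by
    have h := (pos_lie β x y).1
    change neg β x = 0 at hx
    change neg β y = 0 at hy
    rw [hx, hy, sub_zero, sub_zero] at h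
    exact h

theorem compl : IsCompl (AA β).toSubmodule (BB β).toSubmodule := by
  constructor
  · rw [Submodule.disjoint_def]
    intro x hx hy
    change neg β x = x at hx
    change neg β x = 0 at hy
    rw [← hx, hy]
  · rw [codisjoint_iff, eq_top_iff]
    intro x _
    rw [Submodule.mem_sup]
    refine ⟨neg β x, neg_neg' β x, x - neg β x, ?_, by abel⟩
    change neg β (x - neg β x) = 0
    rw [map_sub, neg_neg', sub_self]

/-- the character of the nonnegative part -/
def chi (κ : K) : BB β →ₗ⁅K⁆ K where
  toFun b := κ * zz β (b : Aff β)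
  map_add' x y := by
    change κ * zz β ((x : Aff β) + (y : Aff β)) = _
    rw [map_add, mul_add]
  map_smul' r x := by
    change κ * zz β (r • (x : Aff β)) = r • (κ * zz β (x : Aff β))
    rw [map_smul, smul_eq_mul, smul_eq_mul]
    ring
  map_lie' {x y} := by
    have h := (pos_lie β (x : Aff β) (y : Aff β)).2
    have hx : neg β (x : Aff β) = 0 := x.2
    have hy : neg β (y : Aff β) = 0 := y.2
    rw [hx, hy, sub_zero, sub_zero] at h
    change κ * zz β ⁅(x : Aff β), (y : Aff β)⁆ = ⁅κ * zz β (x : Aff β), κ * zz β (y : Aff β)⁆
    rw [h, mul_zero, LieRing.of_associative_ring_bracket]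
    ring

variable (h0 : g) (W : Type) [AddCommGroup W] [Module K W] (A : g →ₗ[K] Module.End K W)

/-- the operators of the modes, linearly in `x` -/
def opx (n : ℤ) : g →ₗ[K] Module.End K W :=
  if n = -1 then A else if n = -2 then
    (LinearMap.toSpanSingleton K (Module.End K W) 1).comp (β.B h0) else 0

theorem opx_apply (n : ℤ) (x : g) : opx β h0 W A n x = op β h0 W A x n := by
  unfold opx op
  by_cases h1 : n = -1
  · rw [if_pos h1, if_pos h1]
  · rw [if_neg h1, if_neg h1]
    by_cases h2 : n = -2
    · rw [if_pos h2, if_pos h2]
      rfl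
    · rw [if_neg h2, if_neg h2]
      rfl

/-- the operators of all elements of `Aff β` -/
def opL : Aff β →ₗ[K] Module.End K W :=
  (Finsupp.lsum K fun n : ℤ => opx β h0 W A n).comp (LinearMap.fst K (ℤ →₀ g) K)

theorem opL_mono (n : ℤ) (x : g) : opL β h0 W A (Aff.mono β n x) = op β h0 W A x n := by
  change (Finsupp.lsum K fun n : ℤ => opx β h0 W A n) (Finsupp.single n x) = _
  rw [Finsupp.lsum_single, opx_apply]

theorem opL_lie (hA : IsHei β h0 W A) (x y : Aff β) :
    opL β h0 W A ⁅neg β x, neg β y⁆ =
      opL β h0 W A (neg β x) * opL β h0 W A (neg β y) -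
        opL β h0 W A (neg β y) * opL β h0 W A (neg β x) := by
  induction x using Aff.ind with
  | hadd x x' hx hx' =>
    simp only [map_add, add_lie, hx, hx', add_mul, mul_add]
    abel
  | hc r => simp [neg_cen]
  | hm m x =>
    induction y using Aff.ind with
    | hadd y y' hy hy' =>
      simp only [map_add, lie_add, hy, hy', add_mul, mul_add]
      abel
    | hc r => simp [neg_cen]
    | hm n y =>
      rw [neg_mono, neg_mono]
      by_cases hm : m < 0
      · by_cases hn : n < 0
        · rw [if_pos hm, if_pos hn, Aff.lie_mono, if_neg (by omega), zero_smul, add_zero,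
            opL_mono, opL_mono, opL_mono]
          by_cases m1 : m = -1
          · by_cases n1 : n = -1
            · subst m1 n1
              have h := hA x y
              simp only [op]
              norm_num
              exact h.symm
            · have e : op β h0 W A ⁅x, y⁆ (m + n) = 0 := by
                unfold op
                rw [if_neg (by omega), if_neg (by omega)]
              rw [e]
              by_cases n2 : n = -2
              · have e2 : op β h0 W A y n = β.B h0 y • 1 := by
                  unfold op
                  rw [if_neg n1, if_pos n2]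
                rw [e2]
                simp
              · have e2 : op β h0 W A y n = 0 := by
                  unfold op
                  rw [if_neg n1, if_neg n2]
                rw [e2]
                simp
          · have e : op β h0 W A ⁅x, y⁆ (m + n) = 0 := by
              unfold op
              rw [if_neg (by omega), if_neg (by omega)]
            rw [e]
            by_cases m2 : m = -2
            · have e2 : op β h0 W A x m = β.B h0 x • 1 := by
                unfold op
                rw [if_neg m1, if_pos m2]
              rw [e2]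
              simp
            · have e2 : op β h0 W A x m = 0 := by
                unfold op
                rw [if_neg m1, if_neg m2]
              rw [e2]
              simp
        · rw [if_neg hn]
          simp
      · rw [if_neg hm]
        simp

/-- the representation of the negative part -/
def phi (hA : IsHei β h0 W A) : AA β →ₗ⁅K⁆ Module.End K W where
  toFun a := opL β h0 W A (a : Aff β)
  map_add' x y := by
    change opL β h0 W A ((x : Aff β) + (y : Aff β)) = _
    rw [map_add]
  map_smul' r x := by
    change opL β h0 W A (r • (x : Aff β)) = r • (opL β h0 W A (x : Aff β))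
    rw [map_smul]
  map_lie' {x y} := by
    have h := opL_lie β h0 W A hA (x : Aff β) (y : Aff β)
    have hx : neg β (x : Aff β) = x := x.2
    have hy : neg β (y : Aff β) = y := y.2
    rw [hx, hy] at h
    change opL β h0 W A ⁅(x : Aff β), (y : Aff β)⁆ =
      ⁅opL β h0 W A (x : Aff β), opL β h0 W A (y : Aff β)⁆
    rw [h, LieRing.of_associative_ring_bracket]

end GTHP

open GTHP in
/-- **GTH** -/
theorem t_GTH : S_GTH := by
  intro hMUL K g _ _ _ β κ h0 W _ _ A hA w
  obtain ⟨F, hF1, hFA, hFB⟩ := hMUL K (Aff β) (AA β) (BB β) (compl β)
    (UniversalEnvelopingAlgebra.lift K (chi β κ)) W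
    (UniversalEnvelopingAlgebra.lift K (phi β h0 W A hA)) w
  have hB : ∀ b : Aff β, neg β b = 0 → ∀ u : U β,
      F (u * UniversalEnvelopingAlgebra.ι K b) = (κ * zz β b) • F u := by
    intro b hb u
    have h := hFB ⟨b, hb⟩ u
    rw [UniversalEnvelopingAlgebra.lift_ι_apply] at h
    exact h
  have hAm : ∀ (x : g) (n : ℤ), n < 0 → ∀ u : U β, F (xx β x n * u) = op β h0 W A x n (F u) := by
    intro x n hn u
    have hm : neg β (Aff.mono β n x) = Aff.mono β n x := by rw [neg_mono, if_pos hn]
    have h := hFA ⟨Aff.mono β n x, hm⟩ u
    rw [UniversalEnvelopingAlgebra.lift_ι_apply] at h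
    have e : phi β h0 W A hA ⟨Aff.mono β n x, hm⟩ = op β h0 W A x n := opL_mono β h0 W A n x
    rw [e] at h
    exact h
  have hker : ∀ u ∈ lid β κ, ∀ z : U β, F (z * u) = 0 := by
    intro u hu
    induction hu using Submodule.span_induction with
    | zero => intro z; rw [mul_zero, map_zero]
    | add x y _ _ hx hy => intro z; rw [mul_add, map_add, hx, hy, add_zero]
    | smul a x _ hx => intro z; rw [smul_eq_mul, ← mul_assoc]; exact hx _
    | mem x hx =>
      intro z
      rcases hx with ⟨y, n, hn, rfl⟩ | hx
      · unfold xx
        rw [hB _ (by rw [neg_mono, if_neg (by omega)]), zz_mono, mul_zero, zero_smul]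
      · rw [Set.mem_singleton_iff] at hx
        rw [hx, mul_sub, map_sub]
        unfold cc
        rw [hB _ (neg_cen β), zz_cen, mul_one, ← Algebra.commutes, ← Algebra.smul_def, map_smul,
          sub_self]
  have hle : (lid β κ).restrictScalars K ≤ LinearMap.ker F := by
    intro u hu
    rw [LinearMap.mem_ker]
    have h := hker u hu 1
    rwa [one_mul] at h
  refine ⟨(((lid β κ).restrictScalars K).liftQ F hle).comp
    (Submodule.Quotient.restrictScalarsEquiv K (lid β κ)).symm.toLinearMap, ?_, ?_⟩
  · change F 1 = w
    exact hF1
  · intro x n v hn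
    obtain ⟨u, rfl⟩ := Submodule.Quotient.mk_surjective _ v
    change F (xx β x n * u) = op β h0 W A x n (F u)
    exact hAm x n hn u

end

end Pool.Agent.PVA.G
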