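import Pool.Agent.PVA.G.Stm

/-!
# Piece GZD: the values of `θ` on the `p`-centre
-/

namespace Pool.Agent.PVA.G

noncomputable section

theorem gzd_pow {K : Type} [Field K] {W : Type} [AddCommGroup W] [Module K W]
    (T E : Module.End K W) (a : K) (hT : ∀ f : W, T (E f) = E (T f) + a • f) (k : ℕ) (f : W) :
    (T ^ (k + 1)) (E f) = E ((T ^ (k + 1)) f) + (((k + 1 : ℕ) : K) * a) • (T ^ k) f := by
  induction k with
  | zero =>
    rw [zero_add, pow_one, pow_zero, hT, Nat.cast_one, one_mul]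
    rfl
  | succ k ih =>
    have h1 : (T ^ (k + 1 + 1)) (E f) = T ((T ^ (k + 1)) (E f)) := by
      rw [pow_succ']; rfl
    have h2 : (T ^ (k + 1 + 1)) f = T ((T ^ (k + 1)) f) := by
      rw [pow_succ']; rfl
    have h3 : (T ^ (k + 1)) f = T ((T ^ k) f) := by
      rw [pow_succ']; rfl
    rw [h1, ih, map_add, map_smul, hT, h2, ← h3, Nat.cast_succ (k + 1), add_mul, add_smul, one_mul]
    abel

theorem gzd_op {K g : Type} [Field K] [LieRing g] [LieAlgebra K g] (β : InvForm K g) (h0 : g)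
    (W : Type) [AddCommGroup W] [Module K W] (A : g →ₗ[K] Module.End K W)
    (hA : IsHei β h0 W A) (e x : g) (n : ℤ) :
    ∃ a' : K, ∀ f : W, op β h0 W A x n (A e f) = A e (op β h0 W A x n f) + a' • f := by
  unfold op
  by_cases h1 : n = -1
  · refine ⟨β.B h0 ⁅x, e⁆, fun f => ?_⟩
    rw [if_pos h1]
    have h := congrArg (fun T : Module.End K W => T f) (hA x e)
    simp only [LinearMap.sub_apply, Module.End.mul_apply, LinearMap.smul_apply,
      Module.End.one_apply] at h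
    rw [← h]
    abel
  · by_cases h2 : n = -2
    · refine ⟨0, fun f => ?_⟩
      rw [if_neg h1, if_pos h2]
      simp
    · refine ⟨0, fun f => ?_⟩
      rw [if_neg h1, if_neg h2]
      simp

theorem gzd_comm {K g : Type} [Field K] [LieRing g] [LieAlgebra K g] (p : ℕ) [Fact p.Prime]
    [CharP K p] (β : InvForm K g) (h0 : g)
    (W : Type) [AddCommGroup W] [Module K W] (A : g →ₗ[K] Module.End K W)
    (hA : IsHei β h0 W A) (e x : g) (n : ℤ) (f : W) :
    (op β h0 W A x n ^ p) (A e f) = A e ((op β h0 W A x n ^ p) f) := by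
  obtain ⟨a', ha'⟩ := gzd_op β h0 W A hA e x n
  obtain ⟨k, hk⟩ : ∃ k, p = k + 1 := ⟨p - 1, by have := (Fact.out : p.Prime).pos; omega⟩
  have h := gzd_pow (op β h0 W A x n) (A e) a' ha' k f
  rw [← hk, CharP.cast_eq_zero, zero_mul, zero_smul, add_zero] at h
  exact h

theorem gzd_theta_pow {K g : Type} [Field K] [LieRing g] [LieAlgebra K g] (β : InvForm K g)
    (κ : K) (h0 : g) (W : Type) [AddCommGroup W] [Module K W] (A : g →ₗ[K] Module.End K W)
    (θ : V β κ →ₗ[K] W) (hθ : Eqv β κ h0 W A θ) (x : g) (n : ℤ) (hn : n < 0) (k : ℕ)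
    (v : V β κ) : θ (xx β x n ^ k • v) = (op β h0 W A x n ^ k) (θ v) := by
  induction k with
  | zero =>
    rw [pow_zero, pow_zero, one_smul]
    rfl
  | succ k ih =>
    rw [pow_succ', mul_smul, hθ x n _ hn, ih, pow_succ']
    rfl

theorem gzd_xx_vac {K g : Type} [Field K] [LieRing g] [LieAlgebra K g] (β : InvForm K g)
    (κ : K) (x : g) (n : ℤ) (hn : 0 ≤ n) : xx β x n • vac β κ = 0 := by
  unfold vac
  rw [← Submodule.Quotient.mk_smul, Submodule.Quotient.mk_eq_zero, smul_eq_mul, mul_one]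
  exact Submodule.subset_span (Or.inl ⟨x, n, hn, rfl⟩)

theorem t_GZD (h1 : S_GCZ) : S_GZD := by
  intro K g _ _ _ p _ _ β P hp hP κ h0 e W _ _ A hA θ₁ θ₂ hθ₁ hθ₂ hvac z hz
  have hp0 : p ≠ 0 := by omega
  suffices H : ∀ v : V β κ, (θ₂ v = A e (θ₁ v) ∧ ∀ (x : g) (n : ℤ), 0 ≤ n →
      (xx β x n ^ p - xx β (P x) (p * n)) • v = 0) →
      (θ₂ (z • v) = A e (θ₁ (z • v)) ∧ ∀ (x : g) (n : ℤ), 0 ≤ n →
      (xx β x n ^ p - xx β (P x) (p * n)) • (z • v) = 0) by
    refine (H (vac β κ) ⟨hvac, fun x n hn => ?_⟩).1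
    rw [sub_smul]
    obtain ⟨k, hk⟩ : ∃ k, p = k + 1 := ⟨p - 1, by omega⟩
    have e1 : xx β x n ^ p • vac β κ = 0 := by
      have e0 : xx β x n ^ p = xx β x n ^ k * xx β x n := by
        conv_lhs => rw [hk, pow_succ]
      rw [e0, mul_smul, gzd_xx_vac β κ x n hn, smul_zero]
    have e2 : xx β (P x) (p * n) • vac β κ = 0 :=
      gzd_xx_vac β κ _ _ (by positivity)
    rw [e1, e2, sub_zero]
  unfold Z0 at hz
  induction hz using Algebra.adjoin_induction with
  | mem u hu =>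
    obtain ⟨x, n, rfl⟩ := hu
    rintro v ⟨hv1, hv2⟩
    refine ⟨?_, fun x' n' hn' => ?_⟩
    · rcases lt_or_ge n 0 with hn | hn
      · have hpn : (p : ℤ) * n ≤ -3 := by
          have h3 : (3 : ℤ) ≤ p := by exact_mod_cast hp
          nlinarith
        have e2 : ∀ θ : V β κ →ₗ[K] W, Eqv β κ h0 W A θ → θ (xx β (P x) (p * n) • v) = 0 := by
          intro θ hθ
          rw [hθ _ _ _ (by linarith)]
          unfold op
          rw [if_neg (by omega), if_neg (by omega)]
          rfl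
        rw [sub_smul, map_sub, map_sub, e2 θ₁ hθ₁, e2 θ₂ hθ₂, sub_zero, sub_zero,
          gzd_theta_pow β κ h0 W A θ₁ hθ₁ x n hn, gzd_theta_pow β κ h0 W A θ₂ hθ₂ x n hn, hv1,
          gzd_comm p β h0 W A hA]
      · rw [hv2 x n hn, map_zero, map_zero, map_zero]
    · rw [smul_smul, ← h1 K g p β P hp hP x' n', mul_smul, hv2 x' n' hn', smul_zero]
  | algebraMap r =>
    rintro v ⟨hv1, hv2⟩
    refine ⟨?_, fun x' n' hn' => ?_⟩
    · rw [algebraMap_smul, map_smul, map_smul, map_smul, hv1]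
    · rw [smul_smul, ← h1 K g p β P hp hP x' n', mul_smul, hv2 x' n' hn', smul_zero]
  | add x y _ _ hx hy =>
    intro v hv
    obtain ⟨hx1, hx2⟩ := hx v hv
    obtain ⟨hy1, hy2⟩ := hy v hv
    refine ⟨?_, fun x' n' hn' => ?_⟩
    · rw [add_smul, map_add, map_add, map_add, hx1, hy1]
    · rw [add_smul, smul_add, hx2 x' n' hn', hy2 x' n' hn', add_zero]
  | mul x y _ _ hx hy =>
    intro v hv
    have h := hx (y • v) (hy v hv)
    rw [← mul_smul] at h
    exact h

end

end Pool.Agent.PVA.G
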