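import Pool.Agent.PVA.G.Stm4

/-!
# Piece INS (helper23): `sl_2` satisfies the hypotheses
-/

set_option autoImplicit false

namespace Pool.Agent.PVA.G

namespace INSP

open LieAlgebra.SpecialLinear

variable {K : Type} [Field K]

attribute [local instance 100] LieRing.ofAssociativeRing

theorem mem_sl (A : Matrix (Fin 2) (Fin 2) K) : A ∈ sl (Fin 2) K ↔ A.trace = 0 := Iff.rfl

theorem d11 (x : sl (Fin 2) K) : x.1 1 1 = - x.1 0 0 := by
  have h := (mem_sl x.1).1 x.2
  rw [Matrix.trace_fin_two] at h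
  linear_combination h

/-- the element with given entries -/
def mk (a b c : K) : sl (Fin 2) K :=
  ⟨!![b, a; c, -b], (mem_sl _).2 (by rw [Matrix.trace_fin_two]; simp)⟩

theorem eq_mk (x : sl (Fin 2) K) : x = mk (x.1 0 1) (x.1 0 0) (x.1 1 0) := by
  apply Subtype.ext
  ext i j
  fin_cases i <;> fin_cases j
  · rfl
  · rfl
  · rfl
  · exact d11 x

theorem mk_congr {a b c a' b' c' : K} (h1 : a = a') (h2 : b = b') (h3 : c = c') :
    mk a b c = mk a' b' c' := by
  subst h1 h2 h3; rfl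

theorem br_mk (a b c a' b' c' : K) :
    ⁅mk a b c, mk a' b' c'⁆ = mk (2 * (b * a' - a * b')) (a * c' - c * a') (2 * (c * b' - b * c')) := by
  rw [eq_mk ⁅mk a b c, mk a' b' c'⁆]
  refine mk_congr ?_ ?_ ?_
  · rw [sl_bracket]
    simp only [mk, Matrix.sub_apply, Matrix.mul_apply, Fin.sum_univ_two, Matrix.of_apply,
      Matrix.cons_val', Matrix.cons_val_zero, Matrix.cons_val_one, Matrix.cons_val_fin_one]
    ring
  · rw [sl_bracket]
    simp only [mk, Matrix.sub_apply, Matrix.mul_apply, Fin.sum_univ_two, Matrix.of_apply,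
      Matrix.cons_val', Matrix.cons_val_zero, Matrix.cons_val_one, Matrix.cons_val_fin_one]
    ring
  · rw [sl_bracket]
    simp only [mk, Matrix.sub_apply, Matrix.mul_apply, Fin.sum_univ_two, Matrix.of_apply,
      Matrix.cons_val', Matrix.cons_val_zero, Matrix.cons_val_one, Matrix.cons_val_fin_one]
    ring

theorem smul_mk (r a b c : K) : r • mk a b c = mk (r * a) (r * b) (r * c) := by
  rw [eq_mk (r • mk a b c)]
  rfl

theorem add_mk (a b c a' b' c' : K) : mk a b c + mk a' b' c' = mk (a + a') (b + b') (c + c') := by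
  rw [eq_mk (mk a b c + mk a' b' c')]
  rfl

/-- an ideal containing `e` is everything -/
theorem top_of_e (h2 : (2 : K) ≠ 0) (I : LieIdeal K (sl (Fin 2) K)) (h : mk 1 0 0 ∈ I) :
    I = ⊤ := by
  have hh : mk 0 1 0 ∈ I := by
    have := lie_mem_left K _ I (mk 1 0 0) (mk 0 0 1) h
    rw [br_mk] at this
    simpa using this
  have hf : mk 0 0 1 ∈ I := by
    have := lie_mem_left K _ I (mk 0 1 0) (mk 0 0 1) hh
    rw [br_mk] at this
    have h3 := I.smul_mem (-(2 : K)⁻¹) this
    rw [smul_mk] at h3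
    have e : mk (-(2 : K)⁻¹ * (2 * (1 * 0 - 0 * 0))) (-(2 : K)⁻¹ * (0 * 1 - 0 * 0))
        (-(2 : K)⁻¹ * (2 * (0 * 0 - 1 * 1))) = mk 0 0 1 := by
      refine mk_congr ?_ ?_ ?_
      · ring
      · ring
      · field_simp
        ring
    rwa [e] at h3
  rw [eq_top_iff]
  intro x _
  rw [eq_mk x]
  have h3 := I.add_mem (I.add_mem (I.smul_mem (x.1 0 1) h) (I.smul_mem (x.1 0 0) hh))
    (I.smul_mem (x.1 1 0) hf)
  rw [smul_mk, smul_mk, smul_mk, add_mk, add_mk] at h3
  simpa using h3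

theorem e_of_f (h2 : (2 : K) ≠ 0) (I : LieIdeal K (sl (Fin 2) K)) (h : mk 0 0 1 ∈ I) :
    mk 1 0 0 ∈ I := by
  have hh : mk 0 (-1) 0 ∈ I := by
    have := lie_mem_left K _ I (mk 0 0 1) (mk 1 0 0) h
    rw [br_mk] at this
    simpa using this
  have := lie_mem_left K _ I (mk 0 (-1) 0) (mk 1 0 0) hh
  rw [br_mk] at this
  have h3 := I.smul_mem (-(2 : K)⁻¹) this
  rw [smul_mk] at h3
  have e : mk (-(2 : K)⁻¹ * (2 * (-1 * 1 - 0 * 0))) (-(2 : K)⁻¹ * (0 * 0 - 0 * 1))
      (-(2 : K)⁻¹ * (2 * (0 * 0 - -1 * 0))) = mk 1 0 0 := by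
    refine mk_congr ?_ ?_ ?_
    · field_simp
      ring
    · ring
    · ring
  rwa [e] at h3

theorem e_mem (h2 : (2 : K) ≠ 0) (I : LieIdeal K (sl (Fin 2) K)) (a b c : K)
    (h : mk a b c ∈ I) (h0 : ¬ (a = 0 ∧ b = 0 ∧ c = 0)) : mk 1 0 0 ∈ I := by
  by_cases hc : c = 0
  · by_cases ha : a = 0
    · have hb : b ≠ 0 := fun hb => h0 ⟨ha, hb, hc⟩
      subst hc ha
      have := lie_mem_left K _ I (mk 0 b 0) (mk 1 0 0) h
      rw [br_mk] at this
      have h3 := I.smul_mem (2 * b)⁻¹ this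
      rw [smul_mk] at h3
      have e : mk ((2 * b)⁻¹ * (2 * (b * 1 - 0 * 0))) ((2 * b)⁻¹ * (0 * 0 - 0 * 1))
          ((2 * b)⁻¹ * (2 * (0 * 0 - b * 0))) = mk 1 0 0 := by
        refine mk_congr ?_ ?_ ?_
        · field_simp
          ring
        · ring
        · ring
      rwa [e] at h3
    · apply e_of_f h2 I
      have h3 := lie_mem_left K _ I _ (mk 0 0 1) (lie_mem_left K _ I (mk a b c) (mk 0 0 1) h)
      rw [br_mk, br_mk] at h3
      have h4 := I.smul_mem (-(2 * a)⁻¹) h3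
      rw [smul_mk] at h4
      have e : mk (0 : K) 0 1 = mk (-(2 * a)⁻¹ * (2 * ((a * 1 - c * 0) * 0 - 2 * (b * 0 - a * 0) * 0)))
          (-(2 * a)⁻¹ * (2 * (b * 0 - a * 0) * 1 - 2 * (c * 0 - b * 1) * 0))
          (-(2 * a)⁻¹ * (2 * (2 * (c * 0 - b * 1) * 0 - (a * 1 - c * 0) * 1))) := by
        refine mk_congr ?_ ?_ ?_
        · ring
        · ring
        · field_simp
          ring
      rw [e]
      exact h4
  · have h3 := lie_mem_left K _ I _ (mk 1 0 0) (lie_mem_left K _ I (mk a b c) (mk 1 0 0) h)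
    rw [br_mk, br_mk] at h3
    have h4 := I.smul_mem (-(2 * c)⁻¹) h3
    rw [smul_mk] at h4
    have e : mk (1 : K) 0 0 = mk (-(2 * c)⁻¹ * (2 * ((a * 0 - c * 1) * 1 - 2 * (b * 1 - a * 0) * 0)))
        (-(2 * c)⁻¹ * (2 * (b * 1 - a * 0) * 0 - 2 * (c * 0 - b * 0) * 1))
        (-(2 * c)⁻¹ * (2 * (2 * (c * 0 - b * 0) * 0 - (a * 0 - c * 1) * 0))) := by
      refine mk_congr ?_ ?_ ?_
      · field_simp
        ring
      · ring
      · ring
    rw [e]
    exact h4

theorem simple (h2 : (2 : K) ≠ 0) : LieAlgebra.IsSimple K (sl (Fin 2) K) where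
  eq_bot_or_eq_top I := by
    by_cases h : I = ⊥
    · exact Or.inl h
    · right
      obtain ⟨x, hx, hx0⟩ : ∃ x ∈ I, x ≠ 0 := by
        by_contra hn
        push Not at hn
        exact h ((LieSubmodule.eq_bot_iff I).2 hn)
      refine top_of_e h2 I (e_mem h2 I (x.1 0 1) (x.1 0 0) (x.1 1 0) ?_ ?_)
      · rw [← eq_mk x]; exact hx
      · rintro ⟨ha, hb, hc⟩
        apply hx0
        rw [eq_mk x, ha, hb, hc]
        apply Subtype.ext
        ext i j
        fin_cases i <;> fin_cases j <;> simp [mk]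
  non_abelian h := by
    have h3 := h.trivial (mk (1 : K) 0 0) (mk 0 0 1)
    rw [br_mk] at h3
    have h4 := congrArg (fun z : sl (Fin 2) K => z.1 0 0) h3
    simp [mk] at h4

/-- trace form -/
def tf : InvForm K (sl (Fin 2) K) where
  B := LinearMap.mk₂ K (fun x y => Matrix.trace (x.1 * y.1))
    (fun x x' y => by
      change Matrix.trace ((x.1 + x'.1) * y.1) = _
      rw [add_mul, Matrix.trace_add])
    (fun r x y => by
      change Matrix.trace ((r • x.1) * y.1) = _
      rw [smul_mul_assoc, Matrix.trace_smul])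
    (fun x y y' => by
      change Matrix.trace (x.1 * (y.1 + y'.1)) = _
      rw [mul_add, Matrix.trace_add])
    (fun r x y => by
      change Matrix.trace (x.1 * (r • y.1)) = _
      rw [mul_smul_comm, Matrix.trace_smul])
  symm x y := Matrix.trace_mul_comm x.1 y.1
  inv x y z := by
    change Matrix.trace ((x.1 * y.1 - y.1 * x.1) * z.1) = Matrix.trace (x.1 * (y.1 * z.1 - z.1 * y.1))
    rw [sub_mul, mul_sub, Matrix.trace_sub, Matrix.trace_sub, mul_assoc, mul_assoc,
      Matrix.trace_mul_comm y.1 (x.1 * z.1), mul_assoc]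

theorem sq (x : sl (Fin 2) K) :
    x.1 * x.1 = (x.1 0 0 * x.1 0 0 + x.1 0 1 * x.1 1 0) • (1 : Matrix (Fin 2) (Fin 2) K) := by
  have h := d11 x
  ext i j
  fin_cases i <;> fin_cases j
  · simp [Matrix.mul_apply, Fin.sum_univ_two]
  · simp [Matrix.mul_apply, Fin.sum_univ_two, h]; ring
  · simp [Matrix.mul_apply, Fin.sum_univ_two, h]; ring
  · simp [Matrix.mul_apply, Fin.sum_univ_two, h]; ring

theorem tr_pow (x : sl (Fin 2) K) (m : ℕ) : x.1 ^ (2 * m + 1) ∈ sl (Fin 2) K := by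
  rw [mem_sl, pow_succ, pow_mul, pow_two, sq, smul_pow, one_pow, smul_mul_assoc, one_mul,
    Matrix.trace_smul, (mem_sl x.1).1 x.2, smul_zero]

theorem ad_pow (p : ℕ) [Fact p.Prime] [CharP K p] (x y : Matrix (Fin 2) (Fin 2) K) :
    ((LinearMap.mulLeft K x - LinearMap.mulRight K x) ^ p) y = x ^ p * y - y * x ^ p := by
  have : CharP (Module.End K (Matrix (Fin 2) (Fin 2) K)) p :=
    charP_of_injective_algebraMap (algebraMap K _).injective p
  rw [sub_pow_char_of_commute _ (LinearMap.commute_mulLeft_right x x), LinearMap.pow_mulLeft,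
    LinearMap.pow_mulRight]
  rfl

theorem ad_coe (x y : sl (Fin 2) K) (n : ℕ) :
    (((LieAlgebra.ad K (sl (Fin 2) K) x) ^ n) y).1 =
      ((LinearMap.mulLeft K x.1 - LinearMap.mulRight K x.1) ^ n) y.1 := by
  induction n with
  | zero => rfl
  | succ n ih =>
    rw [pow_succ', pow_succ', Module.End.mul_apply, Module.End.mul_apply, ← ih]
    rfl

theorem fdim : FiniteDimensional K (sl (Fin 2) K) :=
  inferInstanceAs (FiniteDimensional K (sl (Fin 2) K).toSubmodule)

end INSP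

open INSP in
theorem t_INS : S_INS := by
  intro K _ p _ _ hp
  have h2 : (2 : K) ≠ 0 := by
    intro h
    have h3 : ((2 : ℕ) : K) = 0 := by exact_mod_cast h
    have h4 := (CharP.cast_eq_zero_iff K p 2).1 h3
    have := Nat.le_of_dvd (by norm_num) h4
    omega
  have hodd : ∃ m, p = 2 * m + 1 := by
    rcases (Fact.out : p.Prime).eq_two_or_odd' with h | h
    · omega
    · exact h
  obtain ⟨m, hm⟩ := hodd
  refine ⟨simple h2, ?_, tf, fun x => ⟨x.1 ^ p, by rw [hm]; exact tr_pow x m⟩, fun x y => rfl,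
    fun x => rfl, ?_, ?_⟩
  · exact fdim
  · intro x hx
    have ha := hx (mk 0 0 1)
    have hb := hx (mk 0 1 0)
    have hc := hx (mk 1 0 0)
    change Matrix.trace (x.1 * (mk (0 : K) 0 1).1) = 0 at ha
    change Matrix.trace (x.1 * (mk (0 : K) 1 0).1) = 0 at hb
    change Matrix.trace (x.1 * (mk (1 : K) 0 0).1) = 0 at hc
    rw [Matrix.trace_fin_two] at ha hb hc
    have h11 := d11 x
    simp [mk, Matrix.mul_apply, Fin.sum_univ_two, h11] at ha hb hc
    have hb' : x.1 0 0 = 0 := by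
      have : (2 : K) * x.1 0 0 = 0 := by linear_combination hb
      exact (mul_eq_zero.1 this).resolve_left h2
    rw [eq_mk x, ha, hb', hc]
    apply Subtype.ext
    ext i j
    fin_cases i <;> fin_cases j <;> simp [mk]
  · intro x y
    apply Subtype.ext
    rw [ad_coe, ad_pow]
    rfl

end Pool.Agent.PVA.G
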