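import Pool.Agent.PVA.G.Stm3

/-!
# Piece SCH (helper58): dual bases and the Casimir scalar
-/

set_option autoImplicit false

namespace Pool.Agent.PVA.G

namespace SCH

variable {K g : Type} [Field K] [LieRing g] [LieAlgebra K g] (β : InvForm K g)

theorem exp1 {n : ℕ} (b : Module.Basis (Fin n) K g) (b' : Fin n → g)
    (hd : ∀ i j, β.B (b i) (b' j) = if i = j then 1 else 0) (y : g) :
    ∑ i, β.B y (b' i) • b i = y := by
  have h : ∀ i, β.B y (b' i) = b.repr y i := by
    intro i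
    have h0 := congrArg (fun z => β.B z (b' i)) (b.sum_repr y)
    simp only [map_sum, LinearMap.sum_apply, map_smul, LinearMap.smul_apply, hd, smul_eq_mul,
      mul_ite, mul_one, mul_zero, Finset.sum_ite_eq', Finset.mem_univ, if_true] at h0
    exact h0.symm
  simp only [h]
  exact b.sum_repr y

theorem exp2 {n : ℕ} (b : Module.Basis (Fin n) K g) (b' : Fin n → g)
    (hd : ∀ i j, β.B (b i) (b' j) = if i = j then 1 else 0) (y : g) :
    ∑ i, β.B y (b i) • b' i = y := by
  set w := ∑ i, β.B y (b i) • b' i - y with hw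
  have h1 : ∀ j, β.B (b j) w = 0 := by
    intro j
    rw [hw, map_sub, map_sum]
    simp [hd, β.symm y (b j)]
  have h2 : ∀ x, β.B x w = 0 := by
    intro x
    have h0 := congrArg (fun z => β.B z w) (b.sum_repr x)
    simp only [map_sum, LinearMap.sum_apply, map_smul, LinearMap.smul_apply, h1, smul_zero,
      Finset.sum_const_zero] at h0
    exact h0.symm
  have h3 : w = 0 := by
    rw [← exp1 β b b' hd w]
    refine Finset.sum_eq_zero fun i _ => ?_
    rw [β.symm, h2, zero_smul]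
  exact sub_eq_zero.1 h3

/-- the dual basis -/
theorem exists_dual [FiniteDimensional K g] (hnd : ∀ x : g, (∀ y : g, β.B x y = 0) → x = 0)
    {n : ℕ} (b : Module.Basis (Fin n) K g) :
    ∃ b' : Fin n → g, ∀ i j, β.B (b i) (b' j) = if i = j then 1 else 0 := by
  let T : g →ₗ[K] (Fin n → K) := LinearMap.pi fun i => β.B (b i)
  have hT : ∀ x i, T x i = β.B (b i) x := fun x i => rfl
  have hinj : Function.Injective T := by
    rw [← LinearMap.ker_eq_bot, LinearMap.ker_eq_bot']
    intro x hx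
    refine hnd x fun y => ?_
    have h1 : ∀ i, β.B (b i) x = 0 := fun i => by rw [← hT, hx]; rfl
    have h0 := congrArg (fun z => β.B z x) (b.sum_repr y)
    simp only [map_sum, LinearMap.sum_apply, map_smul, LinearMap.smul_apply, h1, smul_zero,
      Finset.sum_const_zero] at h0
    rw [β.symm]
    exact h0.symm
  have hdim : Module.finrank K g = Module.finrank K (Fin n → K) := by
    rw [Module.finrank_eq_card_basis b, Module.finrank_fintype_fun_eq_card]
  have hsurj : Function.Surjective T :=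
    (LinearMap.injective_iff_surjective_of_finrank_eq_finrank hdim).1 hinj
  choose b' hb' using fun j : Fin n => hsurj (Pi.single j 1)
  refine ⟨b', fun i j => ?_⟩
  rw [← hT, hb', Pi.single_apply]

/-- the Casimir operator -/
noncomputable def cas {n : ℕ} (b : Module.Basis (Fin n) K g) (b' : Fin n → g) : g →ₗ[K] g :=
  ∑ i, (LieModule.toEnd K g g (b i)) * (LieModule.toEnd K g g (b' i))

theorem cas_apply {n : ℕ} (b : Module.Basis (Fin n) K g) (b' : Fin n → g) (x : g) :
    cas b b' x = ∑ i, ⁅b i, ⁅b' i, x⁆⁆ := by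
  unfold cas
  rw [LinearMap.sum_apply]
  rfl

theorem inv2 (y u v : g) : β.B ⁅y, u⁆ v = -β.B ⁅y, v⁆ u := by
  rw [β.inv, β.inv, ← lie_skew v u, map_neg, neg_neg]

theorem cas_comm {n : ℕ} (b : Module.Basis (Fin n) K g) (b' : Fin n → g)
    (hd : ∀ i j, β.B (b i) (b' j) = if i = j then 1 else 0) (y x : g) :
    cas b b' ⁅y, x⁆ = ⁅y, cas b b' x⁆ := by
  rw [cas_apply, cas_apply, lie_sum]
  have h1 : ∀ i, ⁅y, ⁅b i, ⁅b' i, x⁆⁆⁆ = ⁅⁅y, b i⁆, ⁅b' i, x⁆⁆ + ⁅b i, ⁅⁅y, b' i⁆, x⁆⁆ +
      ⁅b i, ⁅b' i, ⁅y, x⁆⁆⁆ := by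
    intro i
    rw [leibniz_lie y (b i), leibniz_lie y (b' i), lie_add, add_assoc]
  simp only [h1]
  rw [Finset.sum_add_distrib, Finset.sum_add_distrib]
  have h2 : ∑ i, ⁅⁅y, b i⁆, ⁅b' i, x⁆⁆ = ∑ i, ∑ j, β.B ⁅y, b i⁆ (b' j) • ⁅b j, ⁅b' i, x⁆⁆ := by
    refine Finset.sum_congr rfl fun i _ => ?_
    conv_lhs => rw [← exp1 β b b' hd ⁅y, b i⁆]
    rw [sum_lie]
    simp only [smul_lie]
  have h3 : ∑ j, ⁅b j, ⁅⁅y, b' j⁆, x⁆⁆ = ∑ j, ∑ i, β.B ⁅y, b' j⁆ (b i) • ⁅b j, ⁅b' i, x⁆⁆ := by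
    refine Finset.sum_congr rfl fun j _ => ?_
    conv_lhs => rw [← exp2 β b b' hd ⁅y, b' j⁆]
    rw [sum_lie, lie_sum]
    simp only [smul_lie, lie_smul]
  have h4 : ∑ i, ⁅⁅y, b i⁆, ⁅b' i, x⁆⁆ + ∑ j, ⁅b j, ⁅⁅y, b' j⁆, x⁆⁆ = 0 := by
    rw [h2, h3, Finset.sum_comm, ← Finset.sum_add_distrib]
    refine Finset.sum_eq_zero fun i _ => ?_
    rw [← Finset.sum_add_distrib]
    refine Finset.sum_eq_zero fun j _ => ?_
    rw [inv2 β y (b j) (b' i), ← add_smul, neg_add_cancel, zero_smul]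
  rw [h4, zero_add]

end SCH

open SCH in
theorem t_SCH : S_SCH := by
  intro K g _ _ _ _ _ _ β hnd h2
  have hnt : Nontrivial g := by
    by_contra hcon
    rw [not_nontrivial_iff_subsingleton] at hcon
    refine LieAlgebra.IsSimple.non_abelian (R := K) (L := g) ⟨fun x y => ?_⟩
    exact Subsingleton.elim _ _
  let b := Module.finBasis K g
  obtain ⟨b', hb'⟩ := exists_dual β hnd b
  obtain ⟨c, hc⟩ := Module.End.exists_eigenvalue (cas b b' : Module.End K g)
  let I : LieIdeal K g :=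
    { Module.End.eigenspace (cas b b' : Module.End K g) c with
      lie_mem := by
        intro y x hx
        have hx' : cas b b' x = c • x := Module.End.mem_eigenspace_iff.1 hx
        refine Module.End.mem_eigenspace_iff.2 ?_
        rw [cas_comm β b b' hb', hx', lie_smul] }
  have hI : ∀ x, x ∈ I ↔ cas b b' x = c • x := fun x => Module.End.mem_eigenspace_iff
  have htop : I = ⊤ := by
    rcases LieAlgebra.IsSimple.eq_bot_or_eq_top (R := K) I with h | h
    · exfalso
      obtain ⟨v, hv⟩ := hc.exists_hasEigenvector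
      have h1 : v ∈ I := (hI v).2 hv.apply_eq_smul
      rw [h, LieSubmodule.mem_bot] at h1
      exact hv.2 h1
    · exact h
  refine ⟨c / 2, _, b, b', hb', fun x => ?_⟩
  have hx : x ∈ I := by rw [htop]; exact LieSubmodule.mem_top x
  rw [← cas_apply, (hI x).1 hx, mul_div_cancel₀ c h2]

end Pool.Agent.PVA.G
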