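import Pool.Agent.PVA.G.Defs

/-!
# Part 3: every simple Lie algebra `g`, every noncritical level, every odd `p`

All pieces are ports (generalisations) of the finished files of `Pool/Agent/PVA` for `sl_2`
(SUG, CEN, INV, SPN, CEZ, THE, ZDI, FI2): `xx a b c n` becomes `xx β x n`.
-/

namespace Pool.Agent.PVA.G

noncomputable section

/-- `b'` is the dual basis of `b`, and the Casimir element acts on `g` by `2 hv`. -/
def DualCas {K g : Type} [Field K] [LieRing g] [LieAlgebra K g] (β : InvForm K g) (hv : K)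
    {n : ℕ} (b : Module.Basis (Fin n) K g) (b' : Fin n → g) : Prop :=
  (∀ i j, β.B (b i) (b' j) = if i = j then 1 else 0) ∧
    ∀ x : g, ∑ i, ⁅b i, ⁅b' i, x⁆⁆ = (2 * hv) • x

/-- The Sugawara element `∑ b_i(-1) b'_i(-1)`. -/
def sug {K g : Type} [Field K] [LieRing g] [LieAlgebra K g] (β : InvForm K g)
    {n : ℕ} (b : Module.Basis (Fin n) K g) (b' : Fin n → g) : U β :=
  ∑ i, xx β (b i) (-1) * xx β (b' i) (-1)

/-- `IsD`: the operator `D = 2 (κ + hv) L_(-2)` of `V^κ`. -/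
def IsD {K g : Type} [Field K] [LieRing g] [LieAlgebra K g] (β : InvForm K g) (κ hv : K)
    {n : ℕ} (b : Module.Basis (Fin n) K g) (b' : Fin n → g) (D : V β κ →ₗ[K] V β κ) : Prop :=
  D (vac β κ) = sug β b b' • vac β κ ∧ ∀ (x : g) (m : ℤ) (v : V β κ),
    D (xx β x m • v) = xx β x m • D v - (2 * (κ + hv) * m) • (xx β x (m - 2) • v)

/-- `A` represents the Heisenberg algebra of the 2-form `B(h0, [x, y])`. -/
def IsHei {K g : Type} [Field K] [LieRing g] [LieAlgebra K g] (β : InvForm K g) (h0 : g)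
    (W : Type) [AddCommGroup W] [Module K W] (A : g →ₗ[K] Module.End K W) : Prop :=
  ∀ x y : g, A x * A y - A y * A x = β.B h0 ⁅x, y⁆ • (1 : Module.End K W)

/-- The operators of the negative modes on `W`. -/
def op {K g : Type} [Field K] [LieRing g] [LieAlgebra K g] (β : InvForm K g) (h0 : g)
    (W : Type) [AddCommGroup W] [Module K W] (A : g →ₗ[K] Module.End K W) (x : g) (n : ℤ) :
    Module.End K W :=
  if n = -1 then A x else if n = -2 then β.B h0 x • 1 else 0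

/-- `θ` is linear over the negative modes. -/
def Eqv {K g : Type} [Field K] [LieRing g] [LieAlgebra K g] (β : InvForm K g) (κ : K) (h0 : g)
    (W : Type) [AddCommGroup W] [Module K W] (A : g →ₗ[K] Module.End K W)
    (θ : V β κ →ₗ[K] W) : Prop :=
  ∀ (x : g) (n : ℤ) (v : V β κ), n < 0 → θ (xx β x n • v) = op β h0 W A x n (θ v)

/-- **Piece GBA** (100 lines). Basic lemmas, ports of SUG.lean (`uea_ind`, `xx_vac`, `cc_smul`,
`xx_comm`), in one statement. -/
def S_GBA : Prop := ∀ (K g : Type) [Field K] [LieRing g] [LieAlgebra K g] (β : InvForm K g),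
  (∀ P : U β → Prop, (∀ x n, P (xx β x n)) → P (cc β) → (∀ r, P (algebraMap K (U β) r)) →
    (∀ x y, P x → P y → P (x + y)) → (∀ x y, P x → P y → P (x * y)) → ∀ z, P z) ∧
  (∀ z : U β, cc β * z = z * cc β) ∧
  (∀ (x y : g) (m n : ℤ), xx β x m * xx β y n = xx β y n * xx β x m + xx β ⁅x, y⁆ (m + n) +
      (if m + n = 0 then (m : K) * β.B x y else 0) • cc β) ∧
  ∀ κ : K, (∀ (x : g) (n : ℤ), 0 ≤ n → xx β x n • vac β κ = 0) ∧
    (∀ v : V β κ, cc β • v = κ • v) ∧
    (∀ v : V β κ, ∃ z : U β, v = z • vac β κ) ∧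
    ∀ (x y : g) (m n : ℤ) (v : V β κ), xx β x m • (xx β y n • v) =
      xx β y n • (xx β x m • v) + xx β ⁅x, y⁆ (m + n) • v +
        (if m + n = 0 then (m : K) * β.B x y * κ else 0) • v

/-- **Piece GSK** (120 lines; uses GBA). The key computation (`sug_key` in SUG.lean). Proof:
`m = 0`: `∑ [x,b_i] ⊗ b'_i + b_i ⊗ [x,b'_i] = 0` (invariance of the Casimir tensor, expand in the
dual bases: `y = ∑ B(y, b'_i) b_i = ∑ B(y, b_i) b'_i`); `m = 1`:
`∑ [[x,b_i],b'_i] = ∑ [b'_i,[b_i,x]] = 2 hv x` (symmetry of the Casimir tensor) and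
`κ (∑ B(x,b_i) b'_i + ∑ B(x,b'_i) b_i) = 2 κ x`; `m = 2`: `κ ∑ B([x,b_i],b'_i) = 0`
(`= κ B(x, ∑ [b_i,b'_i]) = 0`); `m ≥ 3`: all terms vanish. -/
def S_GSK : Prop := ∀ (K g : Type) [Field K] [LieRing g] [LieAlgebra K g] (β : InvForm K g)
  (κ hv : K) (n : ℕ) (b : Module.Basis (Fin n) K g) (b' : Fin n → g), DualCas β hv b b' →
  ∀ (x : g) (m : ℤ), 0 ≤ m →
    xx β x m • (sug β b b' • vac β κ) = (2 * (κ + hv) * m) • (xx β x (m - 2) • vac β κ)

/-- **Piece GSU** (150 lines; uses GBA, GSK). Existence of `D`; port of `t_SUG` in SUG.lean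
(derivation `dl μ (T^m x) = μ m T^(m-2) x` of `Aff β`, representation on `V × V`). -/
def S_GSU : Prop := ∀ (K g : Type) [Field K] [LieRing g] [LieAlgebra K g] (β : InvForm K g)
  (κ hv : K) (n : ℕ) (b : Module.Basis (Fin n) K g) (b' : Fin n → g), DualCas β hv b b' →
  ∃ D : V β κ →ₗ[K] V β κ, IsD β κ hv b b' D

/-- **Piece GCN** (60 lines; uses GBA). Port of CEN.lean. -/
def S_GCN : Prop := ∀ (K g : Type) [Field K] [LieRing g] [LieAlgebra K g] (p : ℕ)
  [Fact p.Prime] [CharP K p] (β : InvForm K g)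
  (κ hv : K) (n : ℕ) (b : Module.Basis (Fin n) K g) (b' : Fin n → g) (D : V β κ →ₗ[K] V β κ),
  3 ≤ p → IsD β κ hv b b' D → ∀ (x : g) (m : ℤ), 0 ≤ m → xx β x m • ((D ^ p) (vac β κ)) = 0

/-- **Piece GIN** (30 lines). Port of INV.lean. -/
def S_GIN : Prop := ∀ (K g : Type) [Field K] [LieRing g] [LieAlgebra K g] (β : InvForm K g)
  (κ : K) (v : V β κ), (∀ (x : g) (m : ℤ), 0 ≤ m → xx β x m • v = 0) → v ∈ centre β κ

/-- **Piece GSP** (60 lines; uses GBA). Port of SPN.lean. -/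
def S_GSP : Prop := ∀ (K g : Type) [Field K] [LieRing g] [LieAlgebra K g] (β : InvForm K g)
  (κ : K) (M : Submodule K (V β κ)), vac β κ ∈ M →
  (∀ (x : g) (m : ℤ) (v : V β κ), m < 0 → v ∈ M → xx β x m • v ∈ M) → M = ⊤

/-- **Piece GCZ** (80 lines; uses GBA). Port of CEZ.lean: `[x^p, y] = (ad x)^p y`, and
`(ad x_n)^k y_m = ((ad x)^k y)_(m+kn)` up to a central term only for `k = 1`
(`B(x, [x, w]) = B([x, x], w) = 0`). -/
def S_GCZ : Prop := ∀ (K g : Type) [Field K] [LieRing g] [LieAlgebra K g] (p : ℕ)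
  [Fact p.Prime] [CharP K p] (β : InvForm K g) (P : g → g), 3 ≤ p →
  (∀ x y : g, ⁅P x, y⁆ = ((LieAlgebra.ad K g x) ^ p) y) →
  ∀ (x : g) (m : ℤ) (z : U β),
    z * (xx β x m ^ p - xx β (P x) (p * m)) = (xx β x m ^ p - xx β (P x) (p * m)) * z

/-- **Piece GHE** (60 lines). The Heisenberg representation on
`W = MvPolynomial (Fin n) K`: `A x = ` multiplication by `∑ (b.repr x j) X_j` plus the derivation
`X_j ↦ C (1/2 * B(h0, [x, b_j]))`; `w0 = 1`. -/
def S_GHE : Prop := ∀ (K g : Type) [Field K] [LieRing g] [LieAlgebra K g] (β : InvForm K g)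
  (n : ℕ) (_ : Module.Basis (Fin n) K g) (h0 : g), (2 : K) ≠ 0 →
  ∃ A : g →ₗ[K] Module.End K (MvPolynomial (Fin n) K),
    IsHei β h0 (MvPolynomial (Fin n) K) A ∧ ∀ x : g, x ≠ 0 → A x 1 ≠ 0

/-- **Piece GTH** (120 lines). Port of THE.lean (which uses MUL, `Pool.Agent.PVA.S_MUL` of
Stm2.lean; here it is the hypothesis `hMUL`, written out). `A`-part: span of the `mono` with `n < 0`,
`B`-part: `n ≥ 0` and `cen`. -/
def S_GTH : Prop :=
  (∀ (K : Type) [Field K] (L : Type) [LieRing L] [LieAlgebra K L]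
    (A B : LieSubalgebra K L), IsCompl A.toSubmodule B.toSubmodule →
    ∀ (χ : UniversalEnvelopingAlgebra K B →ₐ[K] K) (W : Type) [AddCommGroup W] [Module K W]
      (Φ : UniversalEnvelopingAlgebra K A →ₐ[K] Module.End K W) (w : W),
      ∃ F : UniversalEnvelopingAlgebra K L →ₗ[K] W, F 1 = w ∧
        (∀ (a : A) (u : UniversalEnvelopingAlgebra K L),
          F (UniversalEnvelopingAlgebra.ι K (a : L) * u) =
            Φ (UniversalEnvelopingAlgebra.ι K a) (F u)) ∧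
        ∀ (b : B) (u : UniversalEnvelopingAlgebra K L),
          F (u * UniversalEnvelopingAlgebra.ι K (b : L)) =
            χ (UniversalEnvelopingAlgebra.ι K b) • F u) →
  ∀ (K g : Type) [Field K] [LieRing g] [LieAlgebra K g] (β : InvForm K g) (κ : K) (h0 : g)
    (W : Type) [AddCommGroup W] [Module K W] (A : g →ₗ[K] Module.End K W), IsHei β h0 W A →
    ∀ w : W, ∃ θ : V β κ →ₗ[K] W, θ (vac β κ) = w ∧ Eqv β κ h0 W A θ

/-- **Piece GZD** (80 lines; uses GBA, GCZ). Port of ZDI.lean, with `W × W`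
replaced by a pair `θ₁, θ₂` of maps: `θ₁ vac = w`, `θ₂ vac = A e w`; then
`θ₂ (z vac) = A e (θ₁ (z vac))` for `z ∈ Z0` (`[(A x)^p, A e] = 0` since `[A x, A e]` is a
scalar). -/
def S_GZD : Prop := ∀ (K g : Type) [Field K] [LieRing g] [LieAlgebra K g] (p : ℕ)
  [Fact p.Prime] [CharP K p] (β : InvForm K g) (P : g → g), 3 ≤ p →
  (∀ x y : g, ⁅P x, y⁆ = ((LieAlgebra.ad K g x) ^ p) y) →
  ∀ (κ : K) (h0 e : g) (W : Type) [AddCommGroup W] [Module K W] (A : g →ₗ[K] Module.End K W),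
    IsHei β h0 W A → ∀ θ₁ θ₂ : V β κ →ₗ[K] W, Eqv β κ h0 W A θ₁ → Eqv β κ h0 W A θ₂ →
    θ₂ (vac β κ) = A e (θ₁ (vac β κ)) →
    ∀ z ∈ Z0 β p P, θ₂ (z • vac β κ) = A e (θ₁ (z • vac β κ))

/-- **Piece GCA** (60 lines). In a simple Lie algebra over an algebraically closed field
there are `h0` and `e ≠ 0` with `[h0, e] = α e`, `α ≠ 0`. Proof: by Engel's theorem
(`LieAlgebra.isNilpotent_iff_forall` or similar) some `ad x` is not nilpotent (a nilpotent simple
Lie algebra does not exist: `LieAlgebra.IsSimple` is non-abelian, centre / lower central series); an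
endomorphism of a finite-dimensional space over an algebraically closed field whose only eigenvalue
is `0` is nilpotent. -/
def S_GCA : Prop := ∀ (K g : Type) [Field K] [IsAlgClosed K] [LieRing g] [LieAlgebra K g]
  [FiniteDimensional K g] [LieAlgebra.IsSimple K g],
  ∃ (h0 e : g) (α : K), α ≠ 0 ∧ e ≠ 0 ∧ ⁅h0, e⁆ = α • e

/-- **Piece GFI** (helper21). -/
def S_GFI : Prop := ∀ (K g : Type) [Field K] [LieRing g] [LieAlgebra K g] (p : ℕ)
  [Fact p.Prime] [CharP K p] (β : InvForm K g) (P : g → g), 3 ≤ p →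
  (∀ x y : g, ⁅P x, y⁆ = ((LieAlgebra.ad K g x) ^ p) y) →
  ∀ (hv : K) (n : ℕ) (b : Module.Basis (Fin n) K g) (b' : Fin n → g), DualCas β hv b b' →
  (∃ (h0 e : g) (α : K), α ≠ 0 ∧ e ≠ 0 ∧ ⁅h0, e⁆ = α • e) →
  ∀ κ : K, ∃ v ∈ centre β κ, v ∉ pCentre β p P κ

end

end Pool.Agent.PVA.G
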