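import Pool.Agent.PVA.G.Stm

/-!
# Part 3, one more piece: the Casimir element of a simple Lie algebra
-/

namespace Pool.Agent.PVA.G

/-- **Piece SCH** (100 lines). Dual bases and the Casimir scalar exist.
Proof: `b` = `Module.finBasis K g`, `b'` its dual basis for the non-degenerate form (e.g.
`LinearMap.BilinForm.dualBasis`, or by surjectivity of `x ↦ β.B x`).  The Casimir operator
`C x = ∑ [b_i, [b'_i, x]]` commutes with all `ad y`, since
`∑ [y, b_i] ⊗ b'_i + b_i ⊗ [y, b'_i] = 0` (lemmas `exp1`, `exp2` of `Pool/Agent/PVA/G/GFI.lean`: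
`∑ B(y, b'_i) b_i = y = ∑ B(y, b_i) b'_i`).  It has an eigenvalue `c` (`K` algebraically closed), the
eigenspace is a nonzero ideal, hence everything (`LieAlgebra.IsSimple`); `hv = c / 2`. -/
def S_SCH : Prop := ∀ (K g : Type) [Field K] [IsAlgClosed K] [LieRing g] [LieAlgebra K g]
  [FiniteDimensional K g] [LieAlgebra.IsSimple K g] (β : InvForm K g),
  (∀ x : g, (∀ y : g, β.B x y = 0) → x = 0) → (2 : K) ≠ 0 →
  ∃ (hv : K) (n : ℕ) (b : Module.Basis (Fin n) K g) (b' : Fin n → g), DualCas β hv b b'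

end Pool.Agent.PVA.G
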