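import Pool.Agent.PVA.G.Stm

/-!
# Part 3, last piece: the hypotheses hold for `sl_2`
-/

namespace Pool.Agent.PVA.G

open LieAlgebra.SpecialLinear in
/-- **Piece INS** (120 lines). `sl_2` (2 x 2 matrices of trace zero) is a simple Lie algebra in
odd characteristic, the trace form is invariant, symmetric and non-degenerate, and `x ↦ x^p` (matrix
power; of trace zero as `x^2` is scalar and `p` odd) is its `p`-map.
Proof: simple: a nonzero ideal contains a nonzero `a e + b h + c f`; bracket twice with `e` or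
`f`, or once with `h` and combine (`2 ≠ 0`), to get one of `e, h, f` and then all.
`(ad x)^p = ad (x^p)`: `sub_pow_char_of_commute` for left and right multiplication in `End (Matrix)`
(see `Pool/Agent/PVA/CEZ.lean`). -/
def S_INS : Prop := ∀ (K : Type) [Field K] (p : ℕ) [Fact p.Prime] [CharP K p], 3 ≤ p →
  LieAlgebra.IsSimple K (sl (Fin 2) K) ∧ FiniteDimensional K (sl (Fin 2) K) ∧
    ∃ (β : InvForm K (sl (Fin 2) K)) (P : sl (Fin 2) K → sl (Fin 2) K),
      (∀ x y, β.B x y = Matrix.trace (x.1 * y.1)) ∧ (∀ x, (P x).1 = x.1 ^ p) ∧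
        (∀ x, (∀ y, β.B x y = 0) → x = 0) ∧
          ∀ x y, ⁅P x, y⁆ = ((LieAlgebra.ad K (sl (Fin 2) K) x) ^ p) y

end Pool.Agent.PVA.G
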